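import Pool.Agent.Helper35.QP.M_R

namespace Pool.Agent.Helper35.QP

open Finset

theorem F_congr {M N : ℕ → ℝ} {j : ℕ} {T : ℝ} (h : ∀ m, m ≤ j → M m = N m) : F M j T = F N j T := by
  unfold F
  refine Finset.sum_congr rfl (fun m hm => ?_)
  rw [h m (by have := Finset.mem_range.1 hm; omega)]

theorem F_add (M N : ℕ → ℝ) (j : ℕ) (T : ℝ) : F (fun m => M m + N m) j T = F M j T + F N j T := by
  unfold F
  rw [← Finset.sum_add_distrib]
  exact Finset.sum_congr rfl (fun m _ => by ring)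

theorem F_sub (M N : ℕ → ℝ) (j : ℕ) (T : ℝ) : F (fun m => M m - N m) j T = F M j T - F N j T := by
  unfold F
  rw [← Finset.sum_sub_distrib]
  exact Finset.sum_congr rfl (fun m _ => by ring)

theorem F_smul (c : ℝ) (M : ℕ → ℝ) (j : ℕ) (T : ℝ) : F (fun m => c * M m) j T = c * F M j T := by
  unfold F
  rw [Finset.mul_sum]
  exact Finset.sum_congr rfl (fun m _ => by ring)

theorem F_sum {ι : Type*} (s : Finset ι) (M : ι → ℕ → ℝ) (j : ℕ) (T : ℝ) :
    F (fun m => ∑ i ∈ s, M i m) j T = ∑ i ∈ s, F (M i) j T := by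
  unfold F
  rw [Finset.sum_comm]
  refine Finset.sum_congr rfl (fun m _ => ?_)
  rw [Finset.mul_sum]

theorem F_dil (M : ℕ → ℝ) (j : ℕ) (t T : ℝ) : F (fun m => t ^ m * M m) j T = F M j (t * T) := by
  unfold F
  refine Finset.sum_congr rfl (fun m _ => ?_)
  rw [mul_pow]; ring

theorem lc_self_ne (j : ℕ) : lc j j ≠ 0 := by
  unfold lc
  rw [Nat.choose_self]
  have : 0 < (j + j).choose j := Nat.choose_pos (by omega)
  have h2 : ((j + j).choose j : ℝ) ≠ 0 := by exact_mod_cast this.ne'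
  simp [h2]

theorem F_inj (M : ℕ → ℝ) (j : ℕ) (h : ∀ L, L ≤ j → F M L 1 = 0) : ∀ m, m ≤ j → M m = 0 := by
  intro m
  induction m using Nat.strong_induction_on with
  | _ m ih =>
    intro hm
    have h1 := h m hm
    unfold F at h1
    rw [Finset.sum_range_succ, Finset.sum_eq_zero] at h1
    · simp only [one_pow, mul_one, zero_add] at h1
      rcases mul_eq_zero.1 h1 with h2 | h2
      · exact absurd h2 (lc_self_ne m)
      · exact h2
    · intro i hi
      have := Finset.mem_range.1 hi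
      rw [ih i this (by omega)]; ring

theorem nu_zero_of_lt {p m : ℕ} (h : m < p) : nu p m = 0 := by
  unfold nu
  rw [Nat.choose_eq_zero_of_lt (by omega)]; simp

theorem D_zero_of_lt {p j : ℕ} (t : ℝ) (h : j < p) : D p j t = 0 := by
  unfold D F
  refine Finset.sum_eq_zero (fun m hm => ?_)
  rw [nu_zero_of_lt (by have := Finset.mem_range.1 hm; omega)]; ring

theorem g_pos (i : ℕ) : 0 < g i := by
  unfold g
  have := Nat.centralBinom_pos i
  positivity

theorem sum_pair (f : ℕ → ℝ) (N : ℕ) :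
    ∑ r ∈ range (2 * N), f r = ∑ i ∈ range N, (f (2 * i) + f (2 * i + 1)) := by
  induction N with
  | zero => simp
  | succ N ih =>
    rw [show 2 * (N + 1) = 2 * N + 1 + 1 by ring, Finset.sum_range_succ, Finset.sum_range_succ, ih,
      Finset.sum_range_succ]
    ring

/-- the expansion of `k q` at `T = 1`. -/
theorem base_expand (hC2 : StC2) (hG1 : StG1) (hG2 : StG2) (hK0 : StK0) (hK1 : StK1) (hK2 : StK2)
    (n k j b κ : ℕ) (hn : 1 ≤ n) (hk : 1 ≤ k) (hj : j < n) (hb : min n k = b) (ha : max n k = b + κ)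
    (L : ℕ) (hL : L ≤ j) :
    (k : ℝ) * q n L 1 k = ∑ i ∈ range (j + 2),
      (cf i κ (Ae (b + κ) b) * D (κ + 2 * i) L 1 + cf i (κ + 1) (Go (b + κ) b) * D (κ + 1 + 2 * i) L 1) := by
  have hna : n ≤ b + κ := ha ▸ le_max_left n k
  rcases Nat.lt_or_ge L κ with h | h
  · have := hK0 n k L hn hk (by rw [hb, ha]; omega)
    rw [this, mul_zero]
    symm
    refine Finset.sum_eq_zero (fun i _ => ?_)
    rw [D_zero_of_lt _ (by omega), D_zero_of_lt _ (by omega)]; ring
  · obtain ⟨r, rfl⟩ := Nat.exists_eq_add_of_le h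
    obtain ⟨l, hl⟩ := Nat.even_or_odd' r
    rcases hl with rfl | rfl
    · have h1 := hK1 n k l hn hk (by rw [hb]; omega)
      rw [hb, ha, Nat.add_sub_cancel_left] at h1
      rw [h1, hC2 l κ (Ae (b + κ) b)]
      rw [← Finset.sum_subset (Finset.range_mono (show l + 1 ≤ j + 2 by omega))]
      · refine Finset.sum_congr rfl (fun i hi => ?_)
        have hi' := Finset.mem_range.1 hi
        have e1 : D (κ + 2 * i) (κ + 2 * l) 1 = g (κ + i + l) * g (l - i) := by
          have := hG1 (κ + 2 * i) (l - i)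
          rw [show κ + 2 * i + 2 * (l - i) = κ + 2 * l by omega,
            show κ + 2 * i + (l - i) = κ + i + l by omega] at this
          exact this
        have e2 : D (κ + 1 + 2 * i) (κ + 2 * l) 1 = 0 := by
          rcases Nat.lt_or_ge i l with h3 | h3
          · have := hG2 (κ + 1 + 2 * i) (l - i - 1)
            rwa [show κ + 1 + 2 * i + 2 * (l - i - 1) + 1 = κ + 2 * l by omega] at this
          · exact D_zero_of_lt _ (by omega)
        rw [e1, e2]; ring
      · intro i _ hi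
        have hi' : l + 1 ≤ i := by simpa using hi
        rw [D_zero_of_lt _ (by omega), D_zero_of_lt _ (by omega)]; ring
    · have h1 := hK2 n k l hn hk (by rw [hb]; omega)
      rw [hb, ha, Nat.add_sub_cancel_left] at h1
      rw [show κ + (2 * l + 1) = κ + 1 + 2 * l by ring, h1, hC2 l (κ + 1) (Go (b + κ) b)]
      rw [← Finset.sum_subset (Finset.range_mono (show l + 1 ≤ j + 2 by omega))]
      · refine Finset.sum_congr rfl (fun i hi => ?_)
        have hi' := Finset.mem_range.1 hi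
        have e1 : D (κ + 1 + 2 * i) (κ + 1 + 2 * l) 1 = g (κ + 1 + i + l) * g (l - i) := by
          have := hG1 (κ + 1 + 2 * i) (l - i)
          rw [show κ + 1 + 2 * i + 2 * (l - i) = κ + 1 + 2 * l by omega,
            show κ + 1 + 2 * i + (l - i) = κ + 1 + i + l by omega] at this
          exact this
        have e2 : D (κ + 2 * i) (κ + 1 + 2 * l) 1 = 0 := by
          have := hG2 (κ + 2 * i) (l - i)
          rwa [show κ + 2 * i + 2 * (l - i) + 1 = κ + 1 + 2 * l by omega] at this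
        rw [e1, e2]; ring
      · intro i _ hi
        have hi' : l + 1 ≤ i := by simpa using hi
        rw [D_zero_of_lt _ (by omega), D_zero_of_lt _ (by omega)]; ring

theorem mom_expand (hC2 : StC2) (hG1 : StG1) (hG2 : StG2) (hK0 : StK0) (hK1 : StK1) (hK2 : StK2)
    (n k j b κ : ℕ) (hn : 1 ≤ n) (hk : 1 ≤ k) (hj : j < n) (hb : min n k = b) (ha : max n k = b + κ)
    (m : ℕ) (hm : m ≤ j) :
    (k : ℝ) * mu n m k = ∑ i ∈ range (j + 2),
      (cf i κ (Ae (b + κ) b) * nu (κ + 2 * i) m + cf i (κ + 1) (Go (b + κ) b) * nu (κ + 1 + 2 * i) m) := by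
  have := F_inj (fun m => (k : ℝ) * mu n m k - ∑ i ∈ range (j + 2),
      (cf i κ (Ae (b + κ) b) * nu (κ + 2 * i) m + cf i (κ + 1) (Go (b + κ) b) * nu (κ + 1 + 2 * i) m)) j ?_ m hm
  · simpa [sub_eq_zero] using this
  · intro L hL
    rw [F_sub, F_smul, F_sum]
    have h1 := base_expand hC2 hG1 hG2 hK0 hK1 hK2 n k j b κ hn hk hj hb ha L hL
    unfold q at h1
    rw [h1, sub_eq_zero]
    refine Finset.sum_congr rfl (fun i _ => ?_)
    rw [F_add, F_smul, F_smul]; rfl

theorem q_expand (hC2 : StC2) (hG1 : StG1) (hG2 : StG2) (hK0 : StK0) (hK1 : StK1) (hK2 : StK2)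
    (n k j b κ : ℕ) (hn : 1 ≤ n) (hk : 1 ≤ k) (hj : j < n) (hb : min n k = b) (ha : max n k = b + κ)
    (T : ℝ) :
    (k : ℝ) * q n j T k = ∑ i ∈ range (j + 2),
      (cf i κ (Ae (b + κ) b) * D (κ + 2 * i) j T + cf i (κ + 1) (Go (b + κ) b) * D (κ + 1 + 2 * i) j T) := by
  unfold q
  rw [← F_smul]
  rw [F_congr (fun m hm => mom_expand hC2 hG1 hG2 hK0 hK1 hK2 n k j b κ hn hk hj hb ha m hm), F_sum]
  refine Finset.sum_congr rfl (fun i _ => ?_)
  rw [F_add, F_smul, F_smul]; rfl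

theorem D_dil (hE : StE) (κ j : ℕ) (y T : ℝ) :
    D κ j ((1 - y) * T) = (1 - y) ^ κ * (D κ j T + ∑ i ∈ range (j + 1),
      ((2 * ((κ : ℝ) + 1 + 2 * i)) * y * Phi κ (κ + 1 + 2 * i) y * D (κ + 1 + 2 * i) j T
       - (2 * ((κ : ℝ) + 2 * (i + 1))) * y * Phi κ (κ + 2 * (i + 1)) y * D (κ + 2 * (i + 1)) j T)) := by
  have key : ∀ m, m ≤ j → (1 - y) ^ m * nu κ m = (1 - y) ^ κ * (nu κ m + ∑ i ∈ range (j + 1),
      ((2 * ((κ : ℝ) + 1 + 2 * i)) * y * Phi κ (κ + 1 + 2 * i) y * nu (κ + 1 + 2 * i) m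
       - (2 * ((κ : ℝ) + 2 * (i + 1))) * y * Phi κ (κ + 2 * (i + 1)) y * nu (κ + 2 * (i + 1)) m)) := by
    intro m hm
    rw [hE κ m y]
    congr 2
    set f : ℕ → ℝ := fun p => (-1) ^ (p - κ - 1) * (2 * (p : ℝ)) * y * Phi κ p y * nu p m with hf
    have h1 : ∑ p ∈ Ioc κ m, f p = ∑ r ∈ range (2 * (j + 1)), f (κ + 1 + r) := by
      have h2 : ∑ p ∈ Ioc κ m, f p = ∑ p ∈ Ico (κ + 1) (κ + 1 + 2 * (j + 1)), f p := by
        refine Finset.sum_subset ?_ ?_
        · intro x hx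
          rw [Finset.mem_Ioc] at hx
          rw [Finset.mem_Ico]; omega
        · intro x hx hx2
          rw [Finset.mem_Ico] at hx
          rw [Finset.mem_Ioc] at hx2
          have : m < x := by omega
          simp only [hf]
          rw [nu_zero_of_lt this]; ring
      rw [h2, Finset.sum_Ico_eq_sum_range]
      rw [show κ + 1 + 2 * (j + 1) - (κ + 1) = 2 * (j + 1) by omega]
    rw [h1, sum_pair]
    refine Finset.sum_congr rfl (fun i _ => ?_)
    simp only [hf]
    rw [show κ + 1 + (2 * i) - κ - 1 = 2 * i by omega,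
      show κ + 1 + (2 * i + 1) - κ - 1 = 2 * i + 1 by omega,
      show κ + 1 + (2 * i + 1) = κ + 2 * (i + 1) by ring, pow_succ, pow_mul]
    push_cast
    norm_num
    ring
  have h3 : D κ j ((1 - y) * T) = F (fun m => (1 - y) ^ m * nu κ m) j T := by
    rw [F_dil]; rfl
  rw [h3, F_congr key, F_smul, F_add, F_sum]
  congr 2
  refine Finset.sum_congr rfl (fun i _ => ?_)
  rw [F_sub, F_smul, F_smul]; rfl

/-- Assembly of (QPOS). -/
theorem qpos_of (hC2 : StC2) (hS : StS) (hG1 : StG1) (hG2 : StG2) (hK0 : StK0) (hK1 : StK1)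
    (hK2 : StK2) (hE : StE) (hB1 : StB1) (hB2 : StB2) : StQPOS := by
  intro n k j T hn hk hj hT0 hT1
  obtain ⟨b, hb⟩ : ∃ b, min n k = b := ⟨_, rfl⟩
  obtain ⟨κ, ha⟩ : ∃ κ, max n k = b + κ :=
    ⟨max n k - b, by have : min n k ≤ max n k := min_le_max; omega⟩
  have hb1 : 1 ≤ b := by rw [← hb]; exact le_min hn hk
  have hna : n ≤ b + κ := ha ▸ le_max_left n k
  have hq := q_expand hC2 hG1 hG2 hK0 hK1 hK2 n k j b κ hn hk hj hb ha T
  set y : ℝ := 1 / ((2 * ((b : ℝ) + κ) + 1) * (2 * b - 1)) with hy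
  have hb1' : (1 : ℝ) ≤ b := by exact_mod_cast hb1
  have hκ0 : (0 : ℝ) ≤ κ := by positivity
  have hDpos : (3 : ℝ) ≤ (2 * ((b : ℝ) + κ) + 1) * (2 * b - 1) := by nlinarith
  have hy0 : 0 ≤ y := by rw [hy]; positivity
  have hy1 : y ≤ 1 / 3 := by
    rw [hy]; exact one_div_le_one_div_of_le (by norm_num) hDpos
  have ht0 : 0 < 1 - y := by linarith
  have hdil := D_dil hE κ j y T
  set A0 := Ae (b + κ) b 0 with hA0
  have hA0pos : 0 < A0 := by
    rw [hA0]; unfold Ae
    have h1 := g_pos b; have h2 := g_pos (b + κ)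
    simp only [Nat.cast_zero, sub_zero, Nat.sub_zero, add_zero]
    positivity
  have hsq : 0 ≤ D κ j ((1 - y) * T) := hS κ j _ (by positivity) (by nlinarith)
  set R := ∑ i ∈ range (j + 1),
      ((2 * ((κ : ℝ) + 1 + 2 * i)) * y * Phi κ (κ + 1 + 2 * i) y * D (κ + 1 + 2 * i) j T
       - (2 * ((κ : ℝ) + 2 * (i + 1))) * y * Phi κ (κ + 2 * (i + 1)) y * D (κ + 2 * (i + 1)) j T) with hR
  have hbase : 0 ≤ A0 * (D κ j T + R) := by
    have : D κ j T + R = D κ j ((1 - y) * T) / (1 - y) ^ κ := by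
      rw [hdil]; field_simp
    rw [this]; positivity
  -- split of the main sum
  have hsplit : ∑ i ∈ range (j + 2),
      (cf i κ (Ae (b + κ) b) * D (κ + 2 * i) j T + cf i (κ + 1) (Go (b + κ) b) * D (κ + 1 + 2 * i) j T)
      = A0 * D κ j T + ∑ i ∈ range (j + 1),
        (cf (i + 1) κ (Ae (b + κ) b) * D (κ + 2 * (i + 1)) j T
          + cf i (κ + 1) (Go (b + κ) b) * D (κ + 1 + 2 * i) j T) := by
    rw [Finset.sum_add_distrib, Finset.sum_range_succ' (fun i => cf i κ (Ae (b + κ) b) * D (κ + 2 * i) j T),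
      Finset.sum_range_succ (fun i => cf i (κ + 1) (Go (b + κ) b) * D (κ + 1 + 2 * i) j T),
      D_zero_of_lt (p := κ + 1 + 2 * (j + 1)) _ (by omega), Finset.sum_add_distrib]
    have : cf 0 κ (Ae (b + κ) b) = A0 := rfl
    rw [this]
    simp only [mul_zero, add_zero]
    ring
  have hfin : (k : ℝ) * q n j T k = A0 * (D κ j T + R) + ∑ i ∈ range (j + 1),
      ((cf (i + 1) κ (Ae (b + κ) b) + A0 * (2 * ((κ : ℝ) + 2 * (i + 1))) * y * Phi κ (κ + 2 * (i + 1)) y)
          * D (κ + 2 * (i + 1)) j T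
        + (cf i (κ + 1) (Go (b + κ) b) - A0 * (2 * ((κ : ℝ) + 1 + 2 * i)) * y * Phi κ (κ + 1 + 2 * i) y)
          * D (κ + 1 + 2 * i) j T) := by
    rw [hq, hsplit, mul_add, add_assoc, hR, Finset.mul_sum, ← Finset.sum_add_distrib]
    congr 1
    refine Finset.sum_congr rfl (fun i _ => ?_)
    ring
  have hk0 : (0 : ℝ) < k := by exact_mod_cast hk
  have hall : 0 ≤ (k : ℝ) * q n j T k := by
    rw [hfin]
    refine add_nonneg hbase (Finset.sum_nonneg (fun i _ => add_nonneg ?_ ?_))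
    · rcases Nat.lt_or_ge j (κ + 2 * (i + 1)) with h | h
      · rw [D_zero_of_lt _ h, mul_zero]
      · exact mul_nonneg (hB1 κ b i hb1 (by omega)) (hS _ _ _ hT0 hT1)
    · rcases Nat.lt_or_ge j (κ + 1 + 2 * i) with h | h
      · rw [D_zero_of_lt _ h, mul_zero]
      · exact mul_nonneg (hB2 κ b i hb1 (by omega)) (hS _ _ _ hT0 hT1)
  exact nonneg_of_mul_nonneg_right hall hk0

end Pool.Agent.Helper35.QP
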