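import Pool.Agent.Helper35.QP.St

/-!
# (QPOS), module B: positivity of the remaining coefficients
-/

namespace Pool.Agent.Helper35.QP

open Finset

private lemma B_g_pos (i : ℕ) : 0 < g i := by
  unfold g
  have h : 0 < Nat.centralBinom i := Nat.centralBinom_pos i
  have h2 : (0 : ℝ) < (Nat.centralBinom i : ℝ) := by exact_mod_cast h
  positivity

private lemma B_g_succ (i : ℕ) : 2 * ((i : ℝ) + 1) * g (i + 1) = (2 * i + 1) * g i := by
  unfold g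
  have h := Nat.succ_mul_centralBinom_succ i
  have h2 : ((i : ℝ) + 1) * (Nat.centralBinom (i + 1) : ℝ)
      = 2 * (2 * (i : ℝ) + 1) * (Nat.centralBinom i : ℝ) := by exact_mod_cast h
  rw [pow_succ]
  have h4 : (4 : ℝ) ^ i ≠ 0 := by positivity
  field_simp
  linarith

private lemma B_g_succ' (i : ℕ) : g (i + 1) = (2 * i + 1) / (2 * ((i : ℝ) + 1)) * g i := by
  have h := B_g_succ i
  have h1 : (0 : ℝ) < 2 * ((i : ℝ) + 1) := by positivity
  field_simp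
  linarith

private lemma B_Ao_pos (κ b l : ℕ) : 0 < Ao (b + κ) b l := by
  unfold Ao
  have h1 := B_g_pos (b + κ + 1 + l)
  have h2 := B_g_pos (b - 1 - l)
  have h3 : (0 : ℝ) < ((b + κ : ℕ) : ℝ) + 1 + l := by positivity
  positivity

private lemma B_AeAo (κ b l : ℕ) (h : l + 1 ≤ b) :
    Ae (b + κ) b l * Ao (b + κ) b l
      = (2 * (b : ℝ) - 2 * l - 1) * (2 * ((b : ℝ) + κ) + 2 * l + 1) / 4 := by
  obtain ⟨c, rfl⟩ : ∃ c, b = c + l + 1 := ⟨b - (l + 1), by omega⟩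
  unfold Ae Ao
  have e1 : c + l + 1 - l = c + 1 := by omega
  have e2 : c + l + 1 - 1 - l = c := by omega
  have e3 : c + l + 1 + κ + 1 + l = (c + l + 1 + κ + l) + 1 := by omega
  rw [e1, e2, e3, B_g_succ' c, B_g_succ' (c + l + 1 + κ + l)]
  have h1 := (B_g_pos c).ne'
  have h2 := (B_g_pos (c + l + 1 + κ + l)).ne'
  push_cast
  have h3 : ((c : ℝ) + 1) ≠ 0 := by positivity
  have h4 : ((c : ℝ) + l + 1 + κ + l + 1) ≠ 0 := by positivity
  field_simp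
  ring

private lemma B_diff (κ b l : ℕ) (h : l + 1 ≤ b) :
    Ae (b + κ) b l - Ae (b + κ) b (l + 1)
      = (2 * ((κ : ℝ) + 2 * l) + 3) / (4 * Ao (b + κ) b l) := by
  obtain ⟨c, rfl⟩ : ∃ c, b = c + l + 1 := ⟨b - (l + 1), by omega⟩
  unfold Ae Ao
  have e1 : c + l + 1 - l = c + 1 := by omega
  have e2 : c + l + 1 - 1 - l = c := by omega
  have e3 : c + l + 1 + κ + 1 + l = (c + l + 1 + κ + l) + 1 := by omega
  have e4 : c + l + 1 - (l + 1) = c := by omega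
  have e5 : c + l + 1 + κ + (l + 1) = (c + l + 1 + κ + l) + 1 := by omega
  rw [e1, e2, e3, e4, e5, B_g_succ' c, B_g_succ' (c + l + 1 + κ + l)]
  have h1 := (B_g_pos c).ne'
  have h2 := (B_g_pos (c + l + 1 + κ + l)).ne'
  push_cast
  have h3 : ((c : ℝ) + 1) ≠ 0 := by positivity
  have h4 : ((c : ℝ) + l + 1 + κ + l + 1) ≠ 0 := by positivity
  have h5 : (2 * ((c : ℝ) + l + 1 + κ + l) + 1) ≠ 0 := by positivity
  field_simp
  ring

private lemma B_ratio (κ b l : ℕ) (h : l + 2 ≤ b) :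
    Ao (b + κ) b (l + 1) = Ao (b + κ) b l *
      ((2 * (b : ℝ) - 2 * l - 3) * (2 * ((b : ℝ) + κ) + 2 * l + 3)
        / (4 * ((b : ℝ) - l - 1) * ((b : ℝ) + κ + l + 1))) := by
  obtain ⟨c, rfl⟩ : ∃ c, b = c + l + 2 := ⟨b - (l + 2), by omega⟩
  unfold Ao
  have e1 : c + l + 2 - 1 - (l + 1) = c := by omega
  have e2 : c + l + 2 - 1 - l = c + 1 := by omega
  have e3 : c + l + 2 + κ + 1 + (l + 1) = (c + l + 2 + κ + 1 + l) + 1 := by omega
  rw [e1, e2, e3, B_g_succ' c, B_g_succ' (c + l + 2 + κ + 1 + l)]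
  have h1 := (B_g_pos c).ne'
  have h2 := (B_g_pos (c + l + 2 + κ + 1 + l)).ne'
  push_cast
  have h3 : ((c : ℝ) + 1) ≠ 0 := by positivity
  have h4 : ((c : ℝ) + l + 2 + κ + 1 + l + 1) ≠ 0 := by positivity
  have h5 : ((c : ℝ) + l + 2 + κ + l + 1) ≠ 0 := by positivity
  have h6 : ((c : ℝ) + l + 2 - l - 1) ≠ 0 := by
    have : ((c : ℝ) + l + 2 - l - 1) = c + 1 := by ring
    rw [this]; exact h3
  have h7 : (2 * (c : ℝ) + 1) ≠ 0 := by positivity
  field_simp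
  ring

private lemma B_dec (κ b l : ℕ) (h : l + 2 ≤ b) : Ao (b + κ) b (l + 1) ≤ Ao (b + κ) b l := by
  rw [B_ratio κ b l h]
  have hp := B_Ao_pos κ b l
  have hb : (l : ℝ) + 2 ≤ b := by exact_mod_cast h
  have h1 : (0 : ℝ) < 4 * ((b : ℝ) - l - 1) * ((b : ℝ) + κ + l + 1) := by
    have : (0 : ℝ) < (b : ℝ) - l - 1 := by linarith
    positivity
  have h2 : (2 * (b : ℝ) - 2 * l - 3) * (2 * ((b : ℝ) + κ) + 2 * l + 3)
        / (4 * ((b : ℝ) - l - 1) * ((b : ℝ) + κ + l + 1)) ≤ 1 := by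
    rw [div_le_one h1]
    have hk : (0 : ℝ) ≤ κ := Nat.cast_nonneg κ
    have hl : (0 : ℝ) ≤ l := Nat.cast_nonneg l
    nlinarith
  calc _ ≤ Ao (b + κ) b l * 1 := mul_le_mul_of_nonneg_left h2 hp.le
    _ = _ := mul_one _

private lemma B_dec' (κ b i : ℕ) (h : i + 1 ≤ b) : ∀ l, l ≤ i → Ao (b + κ) b i ≤ Ao (b + κ) b l := by
  induction i with
  | zero => intro l hl; have : l = 0 := by omega
            rw [this]
  | succ i ih =>
    intro l hl
    rcases Nat.lt_or_ge l (i + 1) with h1 | h1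
    · exact (B_dec κ b i (by omega)).trans (ih (by omega) l (by omega))
    · have : l = i + 1 := by omega
      rw [this]

/-- `R_i² ≥ (b-i-1)(a+i+1)/((b-1)(a+1))`, cleared denominators. -/
private lemma B_sq (κ b i : ℕ) (h : i + 2 ≤ b) :
    Ao (b + κ) b 0 ^ 2 * (((b : ℝ) - i - 1) * ((b : ℝ) + κ + i + 1))
      ≤ Ao (b + κ) b i ^ 2 * (((b : ℝ) - 1) * ((b : ℝ) + κ + 1)) := by
  induction i with
  | zero => simp
  | succ i ih =>
    have ih' := ih (by omega)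
    rw [B_ratio κ b i (by omega)]
    have hb : ((i : ℝ) + 1) + 2 ≤ b := by exact_mod_cast h
    have hk : (0 : ℝ) ≤ κ := Nat.cast_nonneg κ
    have hi : (0 : ℝ) ≤ i := Nat.cast_nonneg i
    push_cast
    set B : ℝ := (b : ℝ) - i - 1 with hB
    set A : ℝ := (b : ℝ) + κ + i + 1 with hA
    have hBp : 0 < B := by rw [hB]; linarith
    have hAp : 0 < A := by rw [hA]; linarith
    have e1 : 2 * (b : ℝ) - 2 * i - 3 = 2 * B - 1 := by rw [hB]; ring
    have e2 : 2 * ((b : ℝ) + κ) + 2 * i + 3 = 2 * A + 1 := by rw [hA]; ring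
    have e3 : (b : ℝ) - (i + 1) - 1 = B - 1 := by rw [hB]; ring
    have e4 : (b : ℝ) + κ + (i + 1) + 1 = A + 1 := by rw [hA]; ring
    rw [e1, e2, e3, e4]
    have k1 : (B - 1) * (A + 1) * (4 * B * A) ^ 2
        ≤ ((2 * B - 1) * (2 * A + 1)) ^ 2 * (B * A) := by
      have m1 : 4 * (B * (B - 1)) ≤ (2 * B - 1) ^ 2 := by nlinarith
      have m2 : 4 * (A * (A + 1)) ≤ (2 * A + 1) ^ 2 := by nlinarith
      have hB1 : 0 ≤ B - 1 := by rw [hB]; linarith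
      have m3 : (4 * (B * (B - 1))) * (4 * (A * (A + 1))) ≤ (2 * B - 1) ^ 2 * (2 * A + 1) ^ 2 :=
        mul_le_mul m1 m2 (by positivity) (by positivity)
      have m4 : 0 ≤ B * A := by positivity
      calc (B - 1) * (A + 1) * (4 * B * A) ^ 2
          = (4 * (B * (B - 1))) * (4 * (A * (A + 1))) * (B * A) := by ring
        _ ≤ (2 * B - 1) ^ 2 * (2 * A + 1) ^ 2 * (B * A) := mul_le_mul_of_nonneg_right m3 m4
        _ = ((2 * B - 1) * (2 * A + 1)) ^ 2 * (B * A) := by ring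
    have hW : (0 : ℝ) ≤ ((b : ℝ) - 1) * ((b : ℝ) + κ + 1) := by
      have : (0 : ℝ) ≤ (b : ℝ) - 1 := by linarith
      positivity
    have hD : (0 : ℝ) < (4 * B * A) ^ 2 := by positivity
    rw [mul_pow, div_pow]
    have e5 : Ao (b + κ) b i ^ 2 * (((2 * B - 1) * (2 * A + 1)) ^ 2 / (4 * B * A) ^ 2)
        * (((b : ℝ) - 1) * ((b : ℝ) + κ + 1))
        = (Ao (b + κ) b i ^ 2 * (((b : ℝ) - 1) * ((b : ℝ) + κ + 1))
          * ((2 * B - 1) * (2 * A + 1)) ^ 2) / (4 * B * A) ^ 2 := by ring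
    rw [e5, le_div_iff₀ hD]
    have hq : (0 : ℝ) ≤ ((2 * B - 1) * (2 * A + 1)) ^ 2 := by positivity
    calc Ao (b + κ) b 0 ^ 2 * ((B - 1) * (A + 1)) * (4 * B * A) ^ 2
        = Ao (b + κ) b 0 ^ 2 * ((B - 1) * (A + 1) * (4 * B * A) ^ 2) := by ring
      _ ≤ Ao (b + κ) b 0 ^ 2 * (((2 * B - 1) * (2 * A + 1)) ^ 2 * (B * A)) :=
          mul_le_mul_of_nonneg_left k1 (by positivity)
      _ = (Ao (b + κ) b 0 ^ 2 * (B * A)) * ((2 * B - 1) * (2 * A + 1)) ^ 2 := by ring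
      _ ≤ (Ao (b + κ) b i ^ 2 * (((b : ℝ) - 1) * ((b : ℝ) + κ + 1)))
          * ((2 * B - 1) * (2 * A + 1)) ^ 2 := mul_le_mul_of_nonneg_right ih' hq

/-- the parameter `u = (p²-(κ+1)²) y` is at most `1/2` for `κ + 1 ≤ p ≤ a - 1`. -/
private lemma B_u (κ b p : ℝ) (hk : 0 ≤ κ) (hb : 2 ≤ b) (hp : κ + 1 ≤ p) (hp2 : p + 1 ≤ b + κ) :
    0 ≤ (p ^ 2 - (κ + 1) ^ 2) * (1 / ((2 * (b + κ) + 1) * (2 * b - 1))) ∧
    (p ^ 2 - (κ + 1) ^ 2) * (1 / ((2 * (b + κ) + 1) * (2 * b - 1))) ≤ 1 / 2 := by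
  have hD : 0 < (2 * (b + κ) + 1) * (2 * b - 1) := by
    have : 0 < 2 * b - 1 := by linarith
    have : 0 < 2 * (b + κ) + 1 := by linarith
    positivity
  have h1 : 0 ≤ p ^ 2 - (κ + 1) ^ 2 := by nlinarith
  refine ⟨mul_nonneg h1 (by positivity), ?_⟩
  rw [mul_one_div, div_le_iff₀ hD]
  have h2 : p ^ 2 - (κ + 1) ^ 2 ≤ (b - 2) * (b + 2 * κ) := by
    have : p ^ 2 ≤ (b + κ - 1) ^ 2 := by
      apply pow_le_pow_left₀ (by linarith); linarith
    nlinarith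
  nlinarith

private lemma B_Ae0y (κ b : ℕ) (hb : 1 ≤ b) :
    Ae (b + κ) b 0 * (1 / ((2 * ((b : ℝ) + κ) + 1) * (2 * b - 1))) = 1 / (4 * Ao (b + κ) b 0) := by
  have h := B_AeAo κ b 0 (by omega)
  have hp := B_Ao_pos κ b 0
  have hb' : (1 : ℝ) ≤ b := by exact_mod_cast hb
  have h1 : (2 * ((b : ℝ) + κ) + 1) ≠ 0 := by positivity
  have h2 : (2 * (b : ℝ) - 1) ≠ 0 := by
    have : (0 : ℝ) < 2 * (b : ℝ) - 1 := by linarith
    exact this.ne'
  have h' : Ae (b + κ) b 0 * Ao (b + κ) b 0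
      = (2 * (b : ℝ) - 1) * (2 * ((b : ℝ) + κ) + 1) / 4 := by
    rw [h]; push_cast; ring
  have h3 : Ae (b + κ) b 0
      = (2 * (b : ℝ) - 1) * (2 * ((b : ℝ) + κ) + 1) / 4 / Ao (b + κ) b 0 := by
    rw [eq_div_iff hp.ne']; exact h'
  rw [h3]
  field_simp

theorem pB1 (h1 : StC1) (h3 : StC3) (h4 : StC4) (h5 : StC5) (hP : StP) : StB1 := by
  have _ := h4
  intro κ b i hb hi
  have hAo := B_Ao_pos κ b
  have hk : (0 : ℝ) ≤ κ := Nat.cast_nonneg κ
  have hir : (0 : ℝ) ≤ i := Nat.cast_nonneg i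
  have hbi : 2 * ((i : ℝ) + 1) + 1 ≤ b := by
    have : 2 * (i + 1) + 1 ≤ b := by omega
    exact_mod_cast this
  set c : ℝ := 1 / (8 * Ao (b + κ) b i) with hc
  have hcp : 0 < c := by rw [hc]; have := hAo i; positivity
  -- the auxiliary function
  have hG : 0 ≤ cf (i + 1) κ
      (fun l => 1 * Ae (b + κ) b l + c * ((2 * (l : ℝ)) * (2 * l + 2 * κ + 1))) := by
    apply h3
    · intro l hl
      have hd := B_diff κ b l (by omega)
      have hle := B_dec' κ b i (by omega) l (by omega)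
      have hl' : (2 * ((κ : ℝ) + 2 * l) + 3) / (4 * Ao (b + κ) b l)
          ≤ (2 * ((κ : ℝ) + 2 * l) + 3) / (4 * Ao (b + κ) b i) := by
        have := hAo i
        apply div_le_div_of_nonneg_left (by positivity) (by positivity)
        linarith
      have hcc : c * (8 * (l : ℝ) + 4 * κ + 6) = (2 * ((κ : ℝ) + 2 * l) + 3) / (4 * Ao (b + κ) b i) := by
        rw [hc]
        have := (hAo i).ne'
        field_simp
        ring
      have hcd : c * ((2 * ((l + 1 : ℕ) : ℝ)) * (2 * ((l + 1 : ℕ) : ℝ) + 2 * κ + 1))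
          - c * ((2 * (l : ℝ)) * (2 * l + 2 * κ + 1)) = c * (8 * (l : ℝ) + 4 * κ + 6) := by
        push_cast; ring
      linarith
    · exact Or.inl (Nat.succ_pos i)
  rw [h1, h5] at hG
  have hy := B_Ae0y κ b hb
  set y : ℝ := 1 / ((2 * ((b : ℝ) + κ) + 1) * (2 * b - 1)) with hydef
  have hb2 : (2 : ℝ) ≤ b := by linarith
  have hu := B_u (κ : ℝ) (b : ℝ) ((κ : ℝ) + 2 * (i + 1)) hk hb2 (by linarith) (by linarith)
  rw [← hydef] at hu
  set u : ℝ := (((κ : ℝ) + 2 * (i + 1)) ^ 2 - ((κ : ℝ) + 1) ^ 2) * y with hudef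
  have hypos : 0 ≤ y := by
    rw [hydef]
    have : (0 : ℝ) < 2 * (b : ℝ) - 1 := by linarith
    positivity
  have hPhi := hP κ (κ + 2 * (i + 1)) y (by omega) hypos (by
    have e : (((κ + 2 * (i + 1) : ℕ) : ℝ) ^ 2 - ((κ : ℝ) + 1) ^ 2) * y = u := by
      rw [hudef]; push_cast; ring
    rw [e]; linarith [hu.2])
  have e : (((κ + 2 * (i + 1) : ℕ) : ℝ) ^ 2 - ((κ : ℝ) + 1) ^ 2) * y = u := by
    rw [hudef]; push_cast; ring
  rw [e] at hPhi
  set Ph : ℝ := Phi κ (κ + 2 * (i + 1)) y with hPh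
  -- main inequality Ao 0 ≤ 2 Ao i Phi
  have hmain : Ao (b + κ) b 0 ≤ 2 * Ao (b + κ) b i * Ph := by
    have hPpos : 0 < Ph := by linarith [hPhi.1, hu.2]
    have hAi := hAo i
    have hA0 := hAo 0
    apply (pow_le_pow_iff_left₀ hA0.le (by positivity) two_ne_zero).1
    have hsq := B_sq κ b i (by
      have : 2 * (i + 1) + 1 ≤ b := by omega
      omega)
    -- 1 - u ≤ rho
    have hW : (0 : ℝ) < ((b : ℝ) - 1) * ((b : ℝ) + κ + 1) := by
      have : (0 : ℝ) < (b : ℝ) - 1 := by linarith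
      positivity
    have hrho : (1 - u) * (((b : ℝ) - 1) * ((b : ℝ) + κ + 1))
        ≤ ((b : ℝ) - i - 1) * ((b : ℝ) + κ + i + 1) := by
      have hD : (0 : ℝ) < (2 * ((b : ℝ) + κ) + 1) * (2 * b - 1) := by
        have : (0 : ℝ) < 2 * (b : ℝ) - 1 := by linarith
        positivity
      have hu' : u * ((2 * ((b : ℝ) + κ) + 1) * (2 * b - 1))
          = ((κ : ℝ) + 2 * (i + 1)) ^ 2 - ((κ : ℝ) + 1) ^ 2 := by
        rw [hudef, hydef, mul_assoc, one_div_mul_cancel hD.ne', mul_one]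
      -- u * 4(b-1)(a+1) ≥ p² - (κ+2)² = 4 i (κ+2+i)
      have h4 : u * (4 * (((b : ℝ) - 1) * ((b : ℝ) + κ + 1))) ≥ 4 * ((i : ℝ) * (κ + 2 + i)) := by
        have e1 : 4 * (((b : ℝ) - 1) * ((b : ℝ) + κ + 1))
            = (2 * ((b : ℝ) + κ) + 1) * (2 * b - 1) - (2 * (κ : ℝ) + 3) := by ring
        rw [e1, mul_sub, hu']
        have hu1 : u * (2 * (κ : ℝ) + 3) ≤ 1 * (2 * (κ : ℝ) + 3) :=
          mul_le_mul_of_nonneg_right (by linarith [hu.2]) (by positivity)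
        nlinarith
      nlinarith
    have h1u : 0 ≤ 1 - u := by linarith [hu.2]
    have k1 : Ao (b + κ) b 0 ^ 2 * (1 - u) ≤ Ao (b + κ) b i ^ 2 := by
      have : Ao (b + κ) b 0 ^ 2 * ((1 - u) * (((b : ℝ) - 1) * ((b : ℝ) + κ + 1)))
          ≤ Ao (b + κ) b i ^ 2 * (((b : ℝ) - 1) * ((b : ℝ) + κ + 1)) :=
        (mul_le_mul_of_nonneg_left hrho (by positivity)).trans hsq
      rw [← mul_assoc] at this
      exact le_of_mul_le_mul_right this hW
    have k2 : (1 - u / 2) ^ 2 ≤ Ph ^ 2 := pow_le_pow_left₀ (by linarith [hu.2]) hPhi.1 2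
    have k3 : 1 ≤ 4 * (1 - u) * (1 - u / 2) ^ 2 := by
      have hu0 := hu.1
      have hu2 := hu.2
      have : 4 * (1 - u) * (1 - u / 2) ^ 2 = (1 - u) * (2 - u) ^ 2 := by ring
      rw [this]
      nlinarith [mul_nonneg hu0 (sub_nonneg.2 hu2), mul_nonneg (mul_nonneg hu0 hu0) (sub_nonneg.2 hu2)]
    calc Ao (b + κ) b 0 ^ 2 = Ao (b + κ) b 0 ^ 2 * 1 := (mul_one _).symm
      _ ≤ Ao (b + κ) b 0 ^ 2 * (4 * (1 - u) * (1 - u / 2) ^ 2) :=
          mul_le_mul_of_nonneg_left k3 (by positivity)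
      _ = (Ao (b + κ) b 0 ^ 2 * (1 - u)) * (4 * (1 - u / 2) ^ 2) := by ring
      _ ≤ Ao (b + κ) b i ^ 2 * (4 * Ph ^ 2) :=
          mul_le_mul k1 (by linarith) (by positivity) (by positivity)
      _ = (2 * Ao (b + κ) b i * Ph) ^ 2 := by ring
  -- conclude
  have hterm : Ae (b + κ) b 0 * (2 * ((κ : ℝ) + 2 * (i + 1))) * y * Ph
      = 2 * ((κ : ℝ) + 2 * (i + 1)) * Ph * (1 / (4 * Ao (b + κ) b 0)) := by
    rw [← hy]; ring
  rw [hterm]
  have hfin : c * (2 * ((κ : ℝ) + 2 * (i + 1)))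
      ≤ 2 * ((κ : ℝ) + 2 * (i + 1)) * Ph * (1 / (4 * Ao (b + κ) b 0)) := by
    have hAi := hAo i
    have hA0 := hAo 0
    have h6 : c ≤ Ph * (1 / (4 * Ao (b + κ) b 0)) := by
      rw [hc, mul_one_div, div_le_div_iff₀ (by positivity) (by positivity)]
      nlinarith
    have h7 : (0 : ℝ) ≤ 2 * ((κ : ℝ) + 2 * (i + 1)) := by positivity
    calc c * (2 * ((κ : ℝ) + 2 * (i + 1))) ≤ Ph * (1 / (4 * Ao (b + κ) b 0)) * (2 * ((κ : ℝ) + 2 * (i + 1))) :=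
          mul_le_mul_of_nonneg_right h6 h7
      _ = _ := by ring
  linarith

theorem pB2 (h1 : StC1) (h3 : StC3) (h4 : StC4) (h5 : StC5) (hP : StP) : StB2 := by
  intro κ b i hb hi
  have hAo := B_Ao_pos κ b
  have hk : (0 : ℝ) ≤ κ := Nat.cast_nonneg κ
  have hir : (0 : ℝ) ≤ i := Nat.cast_nonneg i
  have hbi' : 2 * i + 2 ≤ b := by omega
  have hbi : 2 * (i : ℝ) + 2 ≤ b := by exact_mod_cast hbi'
  set H : ℕ → ℝ := fun l => 1 / (4 * Ao (b + κ) b 0) * ((2 * (l : ℝ)) * (2 * l + 2 * ((κ + 1 : ℕ) : ℝ) + 1))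
    + (2 * ((κ : ℝ) + 1) / (4 * Ao (b + κ) b 0)) * 1 with hH
  have hGo : ∀ l, Go (b + κ) b l = (2 * (l : ℝ) + 1) * (2 * l + 2 * κ + 2) / (4 * Ao (b + κ) b l) := by
    intro l
    unfold Go
    have e : (((b + κ : ℕ) : ℝ) - (b : ℝ)) = κ := by push_cast; ring
    rw [e]
  have hHe : ∀ l, H l = (2 * (l : ℝ) + 1) * (2 * l + 2 * κ + 2) / (4 * Ao (b + κ) b 0) := by
    intro l
    rw [hH]
    have := (hAo 0).ne'
    push_cast
    field_simp
    ring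
  have hcfH : cf i (κ + 1) H = 2 * ((κ : ℝ) + 1 + 2 * i) / (4 * Ao (b + κ) b 0) := by
    rcases i with _ | i
    · show H 0 = _
      rw [hHe]; push_cast; ring
    · rw [hH, h1 (i + 1) (κ + 1) (fun l => (2 * (l : ℝ)) * (2 * l + 2 * ((κ + 1 : ℕ) : ℝ) + 1)) (fun _ => 1),
        h4, h5]
      push_cast; ring
  have hdiff : 0 ≤ cf i (κ + 1) (fun l => 1 * Go (b + κ) b l + (-1) * H l) := by
    apply h3
    · intro l hl
      have hA0 := hAo 0
      have hAl := hAo l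
      have hAl1 := hAo (l + 1)
      have hd := B_dec κ b l (by omega)
      have hd0 := B_dec' κ b l (by omega) 0 (by omega)
      have key : ∀ m : ℕ, 1 * Go (b + κ) b m + (-1) * H m
          = (2 * (m : ℝ) + 1) * (2 * m + 2 * κ + 2) / 4 * (1 / Ao (b + κ) b m - 1 / Ao (b + κ) b 0) := by
        intro m
        rw [hGo, hHe]
        have := (hAo m).ne'
        have := (hAo 0).ne'
        field_simp
        ring
      rw [key l, key (l + 1)]
      have m1 : (2 * (l : ℝ) + 1) * (2 * l + 2 * κ + 2) / 4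
          ≤ (2 * ((l + 1 : ℕ) : ℝ) + 1) * (2 * ((l + 1 : ℕ) : ℝ) + 2 * κ + 2) / 4 := by
        push_cast
        have : (0 : ℝ) ≤ l := Nat.cast_nonneg l
        nlinarith
      have m2 : 1 / Ao (b + κ) b l ≤ 1 / Ao (b + κ) b (l + 1) :=
        one_div_le_one_div_of_le hAl1 hd
      have m3 : 1 / Ao (b + κ) b 0 ≤ 1 / Ao (b + κ) b l :=
        one_div_le_one_div_of_le hAl hd0
      apply mul_le_mul m1 (by linarith) (by linarith) (by positivity)
    · rcases Nat.eq_zero_or_pos i with h0 | h0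
      · right
        show 0 ≤ 1 * Go (b + κ) b 0 + (-1) * H 0
        rw [hGo, hHe]
        linarith
      · exact Or.inl h0
  rw [h1, hcfH] at hdiff
  have hy := B_Ae0y κ b hb
  set y : ℝ := 1 / ((2 * ((b : ℝ) + κ) + 1) * (2 * b - 1)) with hydef
  have hb2 : (2 : ℝ) ≤ b := by linarith
  have hu := B_u (κ : ℝ) (b : ℝ) ((κ : ℝ) + 1 + 2 * i) hk hb2 (by linarith) (by linarith)
  rw [← hydef] at hu
  have hypos : 0 ≤ y := by
    rw [hydef]
    have : (0 : ℝ) < 2 * (b : ℝ) - 1 := by linarith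
    positivity
  have hPhi := hP κ (κ + 1 + 2 * i) y (by omega) hypos (by
    have e : (((κ + 1 + 2 * i : ℕ) : ℝ) ^ 2 - ((κ : ℝ) + 1) ^ 2) * y
        = (((κ : ℝ) + 1 + 2 * i) ^ 2 - ((κ : ℝ) + 1) ^ 2) * y := by
      push_cast; ring
    rw [e]; linarith [hu.2])
  have hterm : Ae (b + κ) b 0 * (2 * ((κ : ℝ) + 1 + 2 * i)) * y * Phi κ (κ + 1 + 2 * i) y
      = 2 * ((κ : ℝ) + 1 + 2 * i) * Phi κ (κ + 1 + 2 * i) y * (1 / (4 * Ao (b + κ) b 0)) := by
    rw [← hy]; ring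
  rw [hterm]
  have hA0 := hAo 0
  have hfin : 2 * ((κ : ℝ) + 1 + 2 * i) * Phi κ (κ + 1 + 2 * i) y * (1 / (4 * Ao (b + κ) b 0))
      ≤ 2 * ((κ : ℝ) + 1 + 2 * i) / (4 * Ao (b + κ) b 0) := by
    have h7 : (0 : ℝ) ≤ 2 * ((κ : ℝ) + 1 + 2 * i) := by positivity
    calc 2 * ((κ : ℝ) + 1 + 2 * i) * Phi κ (κ + 1 + 2 * i) y * (1 / (4 * Ao (b + κ) b 0))
        ≤ 2 * ((κ : ℝ) + 1 + 2 * i) * 1 * (1 / (4 * Ao (b + κ) b 0)) :=
          mul_le_mul_of_nonneg_right (mul_le_mul_of_nonneg_left hPhi.2 h7) (by positivity)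
      _ = _ := by ring
  linarith

end Pool.Agent.Helper35.QP
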