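import Pool.Agent.Helper35.QP.St

/-!
# (QPOS) for MP_3dd6d4, module C: the cone functional
-/

namespace Pool.Agent.Helper35.QP

open Finset

theorem pC1 : StC1 := by
  intro i
  induction i with
  | zero => intro κ G H x y; simp [cf]
  | succ i ih =>
    intro κ G H x y
    simp only [cf]
    rw [← ih]
    congr 1
    funext l
    ring

private theorem C_g_succ (i : ℕ) : g (i + 1) = g i * ((2 * (i : ℝ) + 1) / (2 * (i + 1))) := by
  have h1 := Nat.succ_mul_centralBinom_succ i
  have h2 : ((i : ℝ) + 1) * (Nat.centralBinom (i + 1) : ℝ) = 2 * (2 * i + 1) * (Nat.centralBinom i : ℝ) := by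
    exact_mod_cast h1
  have h3 : (i : ℝ) + 1 ≠ 0 := by positivity
  unfold g
  rw [pow_succ]
  field_simp
  linear_combination 2 * h2

private theorem C_ratio (κ l : ℕ) : g (κ + (l + 1)) * g (l + 1) = h κ l * (g (κ + 2 + l) * g l) := by
  have e1 : κ + 2 + l = (κ + (l + 1)) + 1 := by ring
  rw [e1, C_g_succ (κ + (l + 1)), C_g_succ l]
  unfold h
  push_cast
  have h1 : (l : ℝ) + 1 ≠ 0 := by positivity
  have h2 : 2 * (l : ℝ) + 2 * κ + 3 ≠ 0 := by positivity
  have h3 : 2 * ((κ : ℝ) + (l + 1) + 1) ≠ 0 := by positivity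
  have h4 : (κ : ℝ) + (l + 1) + 1 ≠ 0 := by positivity
  field_simp
  ring

theorem pC2 : StC2 := by
  intro l
  induction l with
  | zero => intro κ G; simp [cf]
  | succ l ih =>
    intro κ G
    rw [Finset.sum_range_succ']
    have h1 := ih (κ + 2) (fun l => (G (l + 1) - G 0) * h κ l)
    have h2 : ∑ i ∈ range (l + 1), cf (i + 1) κ G * (g (κ + (i + 1) + (l + 1)) * g (l + 1 - (i + 1))) =
        ∑ i ∈ range (l + 1), cf i (κ + 2) (fun l => (G (l + 1) - G 0) * h κ l) *
          (g (κ + 2 + i + l) * g (l - i)) := by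
      apply Finset.sum_congr rfl
      intro i _
      have e1 : κ + (i + 1) + (l + 1) = κ + 2 + i + l := by ring
      have e2 : l + 1 - (i + 1) = l - i := by omega
      rw [e1, e2]
      rfl
    rw [h2, ← h1]
    have h3 := C_ratio κ l
    have e3 : κ + 0 + (l + 1) = κ + (l + 1) := by ring
    rw [e3]
    simp only [cf, Nat.sub_zero]
    linear_combination (G (l + 1) - G 0) * h3

private theorem C_h_pos (κ l : ℕ) : 0 < h κ l := by unfold h; positivity

private theorem C_h_mono (κ l : ℕ) : h κ l ≤ h κ (l + 1) := by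
  unfold h
  rw [div_le_div_iff₀ (by positivity) (by positivity)]
  push_cast
  have h1 : 0 ≤ ((κ : ℝ) + 1) * (4 * l + 2 * κ + 7) := by positivity
  nlinarith [h1]

theorem pC3 : StC3 := by
  intro i
  induction i with
  | zero =>
    intro κ G _ h0
    rcases h0 with h0 | h0
    · exact absurd h0 (lt_irrefl 0)
    · simpa [cf] using h0
  | succ i ih =>
    intro κ G hG _
    have hle : ∀ l, l ≤ i + 1 → G 0 ≤ G l := by
      intro l
      induction l with
      | zero => intro _; exact le_refl _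
      | succ l ihl => intro hl; exact (ihl (by omega)).trans (hG l (by omega))
    simp only [cf]
    apply ih
    · intro l hl
      apply mul_le_mul
      · have := hG (l + 1) (by omega)
        linarith
      · exact C_h_mono κ l
      · exact (C_h_pos κ l).le
      · have := hle (l + 1 + 1) (by omega)
        linarith
    · right
      have := hG 0 (by omega)
      have h2 := C_h_pos κ 0
      apply mul_nonneg _ h2.le
      simpa using this

private theorem C_cf_zero (i κ : ℕ) : cf i κ (fun _ => 0) = 0 := by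
  have h1 := pC1 i κ (fun _ => 0) (fun _ => 0) 0 0
  simpa using h1

theorem pC4 : StC4 := by
  intro i κ x
  simp only [cf, sub_self, zero_mul]
  exact C_cf_zero i (κ + 2)

theorem pC5 : StC5 := by
  intro i
  induction i with
  | zero =>
    intro κ
    simp only [cf, h]
    push_cast
    have h1 : 2 * (κ : ℝ) + 3 ≠ 0 := by positivity
    field_simp
    ring
  | succ i ih =>
    intro κ
    have e : (fun l : ℕ => ((2 * (((l + 1 : ℕ) : ℝ))) * (2 * ((l + 1 : ℕ) : ℝ) + 2 * κ + 1) -
        (2 * ((0 : ℕ) : ℝ)) * (2 * ((0 : ℕ) : ℝ) + 2 * κ + 1)) * h κ l) =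
        fun l : ℕ => 1 * ((2 * (l : ℝ)) * (2 * l + 2 * ((κ + 2 : ℕ) : ℝ) + 1)) + 1 * (2 * ((κ : ℝ) + 2)) := by
      funext l
      unfold h
      push_cast
      have h1 : (l : ℝ) + 1 ≠ 0 := by positivity
      have h2 : 2 * (l : ℝ) + 2 * κ + 3 ≠ 0 := by positivity
      field_simp
      ring
    have h1 := pC1 (i + 1) (κ + 2) (fun l : ℕ => (2 * (l : ℝ)) * (2 * l + 2 * ((κ + 2 : ℕ) : ℝ) + 1))
      (fun _ => 2 * ((κ : ℝ) + 2)) 1 1
    have h2 := pC4 i (κ + 2) (2 * ((κ : ℝ) + 2))
    rw [h2, ih (κ + 2)] at h1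
    rw [cf, e, h1]
    push_cast
    ring

end Pool.Agent.Helper35.QP
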