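import Pool.Agent.Helper35.QP.St

namespace Pool.Agent.Helper35.QP

open Finset

/-! ### the key binomial sum -/

/-- `S κ m i = ∑_{p=κ+1}^m 2p C(2m,m+p) ∏_{r<i} (p² - (κ+1+r)²)`. -/
noncomputable def eS (κ m i : ℕ) : ℝ :=
  ∑ p ∈ Ioc κ m, (2 * (p : ℝ)) * ((2 * m).choose (m + p) : ℝ) *
    ∏ r ∈ range i, ((p : ℝ) ^ 2 - ((κ : ℝ) + 1 + r) ^ 2)

theorem e_step (m p : ℕ) (hp : 1 ≤ p) (hm : p ≤ m) :
    ((m : ℝ) - ((p - 1 : ℕ) : ℝ)) * ((2 * m).choose (m + (p - 1)) : ℝ)
      = ((m : ℝ) + p) * ((2 * m).choose (m + p) : ℝ) := by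
  obtain ⟨p, rfl⟩ : ∃ p', p = p' + 1 := ⟨p - 1, by omega⟩
  have h := Nat.choose_succ_right_eq (2 * m) (m + p)
  have h2 : 2 * m - (m + p) = m - p := by omega
  rw [h2] at h
  have h3 : (((2 * m).choose (m + p + 1) * (m + p + 1) : ℕ) : ℝ)
      = (((2 * m).choose (m + p) * (m - p) : ℕ) : ℝ) := by rw [h]
  push_cast [Nat.cast_sub (show p ≤ m by omega)] at h3
  have h4 : m + (p + 1 - 1) = m + p := by omega
  have h5 : m + (p + 1) = m + p + 1 := by omega
  rw [h4, h5]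
  have h6 : p + 1 - 1 = p := by omega
  rw [h6]
  push_cast
  linarith

theorem e_tel (f : ℕ → ℝ) (κ : ℕ) (m : ℕ) (h : κ ≤ m) :
    ∑ p ∈ Ioc κ m, (f (p - 1) - f p) = f κ - f m := by
  induction m, h using Nat.le_induction with
  | base => simp
  | succ m hm ih =>
    rw [← Finset.insert_Ioc_right_eq_Ioc_add_one (by omega : κ ≤ m), Finset.sum_insert (by simp), ih]
    simp

theorem eS_zero (κ m : ℕ) (h : κ ≤ m) :
    eS κ m 0 = ((m : ℝ) - κ) * ((2 * m).choose (m + κ) : ℝ) := by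
  unfold eS
  have h1 : ∀ p ∈ Ioc κ m, (2 * (p : ℝ)) * ((2 * m).choose (m + p) : ℝ) *
      ∏ r ∈ range 0, ((p : ℝ) ^ 2 - ((κ : ℝ) + 1 + r) ^ 2)
      = (fun p : ℕ => ((m : ℝ) - p) * ((2 * m).choose (m + p) : ℝ)) (p - 1)
        - (fun p : ℕ => ((m : ℝ) - p) * ((2 * m).choose (m + p) : ℝ)) p := by
    intro p hp
    rw [Finset.mem_Ioc] at hp
    have := e_step m p (by omega) hp.2
    simp only [Finset.range_zero, Finset.prod_empty, mul_one]
    rw [this]
    ring
  rw [Finset.sum_congr rfl h1,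
    e_tel (fun p : ℕ => ((m : ℝ) - p) * ((2 * m).choose (m + p) : ℝ)) κ m h]
  simp

theorem e_choose (m p : ℕ) (hp : p ≤ m) :
    (((m : ℝ) + 1) ^ 2 - (p : ℝ) ^ 2) * ((2 * (m + 1)).choose (m + 1 + p) : ℝ)
      = (2 * (m : ℝ) + 2) * (2 * m + 1) * ((2 * m).choose (m + p) : ℝ) := by
  -- (2m+2)(2m+1) C(2m,m+p) = (m+1+p)(m+1-p) C(2m+2,m+1+p)
  have h1 := Nat.add_one_mul_choose_eq (2 * m + 1) (m + p)
  -- (2m+2) * C(2m+1, m+p) = C(2m+2, m+p+1) * (m+p+1)
  have h2 := Nat.choose_mul_succ_eq (2 * m) (m + p)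
  -- C(2m, m+p) * (2m+1) = C(2m+1, m+p) * (2m+1-(m+p))
  have h3 : 2 * m + 1 - (m + p) = m + 1 - p := by omega
  rw [h3] at h2
  have h1' : ((2 * (m : ℝ) + 1 + 1) * ((2 * m + 1).choose (m + p) : ℝ))
      = ((2 * m + 1 + 1).choose (m + p + 1) : ℝ) * ((m : ℝ) + p + 1) := by exact_mod_cast h1
  have h2' : ((2 * m).choose (m + p) : ℝ) * (2 * (m : ℝ) + 1)
      = ((2 * m + 1).choose (m + p) : ℝ) * ((m : ℝ) + 1 - p) := by
    have : (((2 * m).choose (m + p) * (2 * m + 1) : ℕ) : ℝ)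
      = (((2 * m + 1).choose (m + p) * (m + 1 - p) : ℕ) : ℝ) := by rw [h2]
    push_cast [Nat.cast_sub (show p ≤ m + 1 by omega)] at this
    linarith
  have e1 : 2 * (m + 1) = 2 * m + 1 + 1 := by ring
  have e2 : m + 1 + p = m + p + 1 := by ring
  rw [e1, e2]
  have : (2 * (m : ℝ) + 2) * (2 * m + 1) * ((2 * m).choose (m + p) : ℝ)
      = (2 * (m : ℝ) + 1 + 1) * (((2 * m).choose (m + p) : ℝ) * (2 * (m : ℝ) + 1)) := by ring
  rw [this, h2']
  have : (2 * (m : ℝ) + 1 + 1) * (((2 * m + 1).choose (m + p) : ℝ) * ((m : ℝ) + 1 - p))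
      = ((2 * (m : ℝ) + 1 + 1) * ((2 * m + 1).choose (m + p) : ℝ)) * ((m : ℝ) + 1 - p) := by ring
  rw [this, h1']
  ring

theorem eS_succ (κ m i : ℕ) :
    eS κ (m + 1) (i + 1) = (((m : ℝ) + 1) ^ 2 - ((κ : ℝ) + 1 + i) ^ 2) * eS κ (m + 1) i
      - (2 * (m : ℝ) + 2) * (2 * m + 1) * eS κ m i := by
  by_cases hκ : κ ≤ m
  · have hsub : eS κ m i * ((2 * (m : ℝ) + 2) * (2 * m + 1))
        = ∑ p ∈ Ioc κ (m + 1), (((m : ℝ) + 1) ^ 2 - (p : ℝ) ^ 2) *
          ((2 * (p : ℝ)) * ((2 * (m + 1)).choose (m + 1 + p) : ℝ) *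
            ∏ r ∈ range i, ((p : ℝ) ^ 2 - ((κ : ℝ) + 1 + r) ^ 2)) := by
      rw [← Finset.insert_Ioc_right_eq_Ioc_add_one hκ, Finset.sum_insert (by simp)]
      have h0 : (((m : ℝ) + 1) ^ 2 - (((m + 1 : ℕ)) : ℝ) ^ 2) = 0 := by push_cast; ring
      rw [h0, zero_mul, zero_add]
      unfold eS
      rw [Finset.sum_mul]
      refine Finset.sum_congr rfl fun p hp => ?_
      rw [Finset.mem_Ioc] at hp
      have := e_choose m p hp.2
      calc 2 * (p : ℝ) * ((2 * m).choose (m + p) : ℝ) *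
              (∏ r ∈ range i, ((p : ℝ) ^ 2 - ((κ : ℝ) + 1 + r) ^ 2)) *
              ((2 * (m : ℝ) + 2) * (2 * m + 1))
          = 2 * (p : ℝ) * (∏ r ∈ range i, ((p : ℝ) ^ 2 - ((κ : ℝ) + 1 + r) ^ 2)) *
            ((2 * (m : ℝ) + 2) * (2 * m + 1) * ((2 * m).choose (m + p) : ℝ)) := by ring
        _ = 2 * (p : ℝ) * (∏ r ∈ range i, ((p : ℝ) ^ 2 - ((κ : ℝ) + 1 + r) ^ 2)) *
            ((((m : ℝ) + 1) ^ 2 - (p : ℝ) ^ 2) * ((2 * (m + 1)).choose (m + 1 + p) : ℝ)) := by
              rw [this]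
        _ = _ := by ring
    have : (2 * (m : ℝ) + 2) * (2 * m + 1) * eS κ m i
        = eS κ m i * ((2 * (m : ℝ) + 2) * (2 * m + 1)) := by ring
    rw [this, hsub]
    unfold eS
    rw [Finset.mul_sum, ← Finset.sum_sub_distrib]
    refine Finset.sum_congr rfl fun p _ => ?_
    rw [Finset.prod_range_succ]
    ring
  · have h1 : Ioc κ (m + 1) = ∅ := by
      rw [Finset.Ioc_eq_empty]; omega
    have h2 : Ioc κ m = ∅ := by
      rw [Finset.Ioc_eq_empty]; omega
    simp [eS, h1, h2]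

theorem eS_closed (κ : ℕ) : ∀ (i m : ℕ),
    eS κ m i = ((2 * m).choose (m + κ) : ℝ) * ((m - κ).choose (i + 1) : ℝ) *
      ((i.factorial : ℝ) * ((i + 1).factorial : ℝ)) := by
  intro i
  induction i with
  | zero =>
    intro m
    by_cases hκ : κ ≤ m
    · rw [eS_zero κ m hκ]
      simp [Nat.cast_sub hκ]
      ring
    · have h1 : Ioc κ m = ∅ := by rw [Finset.Ioc_eq_empty]; omega
      have h2 : m - κ = 0 := by omega
      simp [eS, h1, h2]
  | succ i ih =>
    intro m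
    rcases m with _ | m
    · simp [eS]
    by_cases hκ : κ ≤ m
    · rw [eS_succ, ih (m + 1), ih m]
      obtain ⟨n, rfl⟩ : ∃ n, m = n + κ := ⟨m - κ, by omega⟩
      have e1 : n + κ + 1 - κ = n + 1 := by omega
      have e2 : n + κ - κ = n := by omega
      rw [e1, e2]
      have hc := e_choose (n + κ) κ (by omega)
      have a1 : ((n + 1).choose (i + 2) : ℝ) * ((i : ℝ) + 2)
          = ((n + 1).choose (i + 1) : ℝ) * ((n : ℝ) - i) := by
        by_cases hi : i ≤ n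
        · have := Nat.choose_succ_right_eq (n + 1) (i + 1)
          have h3 : n + 1 - (i + 1) = n - i := by omega
          rw [h3] at this
          have h4 : (((n + 1).choose (i + 1 + 1) * (i + 1 + 1) : ℕ) : ℝ)
            = (((n + 1).choose (i + 1) * (n - i) : ℕ) : ℝ) := by rw [this]
          push_cast [Nat.cast_sub hi] at h4
          have h5 : (i : ℝ) + 1 + 1 = i + 2 := by ring
          rw [h5] at h4
          exact h4
        · rw [Nat.choose_eq_zero_of_lt (by omega : n + 1 < i + 2),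
            Nat.choose_eq_zero_of_lt (by omega : n + 1 < i + 1)]
          simp
      have a2 : ((n : ℝ) + 1) * (n.choose (i + 1) : ℝ)
          = ((n : ℝ) - i) * ((n + 1).choose (i + 1) : ℝ) := by
        by_cases hi : i ≤ n
        · have := Nat.choose_mul_succ_eq n (i + 1)
          have h3 : n + 1 - (i + 1) = n - i := by omega
          rw [h3] at this
          have h4 : ((n.choose (i + 1) * (n + 1) : ℕ) : ℝ)
            = (((n + 1).choose (i + 1) * (n - i) : ℕ) : ℝ) := by rw [this]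
          push_cast [Nat.cast_sub hi] at h4
          linarith
        · rw [Nat.choose_eq_zero_of_lt (by omega : n < i + 1),
            Nat.choose_eq_zero_of_lt (by omega : n + 1 < i + 1)]
          simp
      have f1 : ((i + 1).factorial : ℝ) = ((i : ℝ) + 1) * (i.factorial : ℝ) := by
        rw [Nat.factorial_succ]; push_cast; ring
      have f2 : ((i + 1 + 1).factorial : ℝ) = ((i : ℝ) + 2) * ((i + 1).factorial : ℝ) := by
        rw [Nat.factorial_succ]; push_cast; ring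
      push_cast at hc ⊢
      set C2 : ℝ := ((2 * (n + κ + 1)).choose (n + κ + 1 + κ) : ℝ) with hC2
      set C0 : ℝ := ((2 * (n + κ)).choose (n + κ + κ) : ℝ) with hC0
      rw [f2, f1]
      set I : ℝ := (i.factorial : ℝ)
      set c1 : ℝ := ((n + 1).choose (i + 1) : ℝ)
      set c2 : ℝ := ((n + 1).choose (i + 1 + 1) : ℝ)
      set c0 : ℝ := (n.choose (i + 1) : ℝ)
      have hexp : (2 * ((n : ℝ) + κ) + 2) * (2 * ((n : ℝ) + κ) + 1) *
          (C0 * c0 * (I * (((i : ℝ) + 1) * I)))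
          = (((n : ℝ) + κ + 1) ^ 2 - (κ : ℝ) ^ 2) * C2 * c0 * (I * (((i : ℝ) + 1) * I)) := by
        rw [hc]; ring
      rw [hexp]
      have h6 : (((n : ℝ) + κ + 1) ^ 2 - (κ : ℝ) ^ 2) * C2 * c0 * (I * (((i : ℝ) + 1) * I))
          = ((n : ℝ) + 1 + 2 * κ) * C2 * (((n : ℝ) + 1) * c0) * (I * (((i : ℝ) + 1) * I)) := by
        ring
      rw [h6, a2]
      have h7 : C2 * c2 * (((i : ℝ) + 1) * I * (((i : ℝ) + 2) * (((i : ℝ) + 1) * I)))
          = C2 * (c2 * ((i : ℝ) + 2)) * (((i : ℝ) + 1) * I * (((i : ℝ) + 1) * I)) := by ring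
      rw [h7]
      have a1' : c2 * ((i : ℝ) + 2) = c1 * ((n : ℝ) - i) := a1
      rw [a1']
      ring
    · have h1 : Ioc κ (m + 1) = ∅ := by rw [Finset.Ioc_eq_empty]; omega
      have h2 : m + 1 - κ = 0 := by omega
      simp [eS, h1, h2]

theorem e_prod_zero (κ p i : ℕ) (hp : κ < p) (hi : p < κ + 1 + i) :
    ∏ r ∈ range i, ((p : ℝ) ^ 2 - ((κ : ℝ) + 1 + r) ^ 2) = 0 := by
  apply Finset.prod_eq_zero (i := p - κ - 1) (by rw [Finset.mem_range]; omega)
  have : ((p - κ - 1 : ℕ) : ℝ) = (p : ℝ) - κ - 1 := by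
    rw [Nat.cast_sub (by omega), Nat.cast_sub (by omega)]; push_cast; ring
  rw [this]; ring

theorem Phi_ext (κ p m : ℕ) (y : ℝ) (hp : κ < p) (hm : p ≤ m) :
    Phi κ p y = ∑ i ∈ range (m + 1), (-1) ^ i * y ^ i *
      (∏ r ∈ range i, ((p : ℝ) ^ 2 - ((κ : ℝ) + 1 + r) ^ 2)) /
        ((i.factorial : ℝ) * ((i + 1).factorial : ℝ)) := by
  unfold Phi
  apply Finset.sum_subset
  · intro i hi
    rw [Finset.mem_range] at hi ⊢
    omega
  · intro i _ hi
    rw [Finset.mem_range, not_lt] at hi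
    rw [e_prod_zero κ p i hp (by omega)]
    simp

theorem pE : StE := by
  intro κ m y
  by_cases hκ : κ ≤ m
  · have hpow : (1 - y) ^ m = (1 - y) ^ κ * (1 - y) ^ (m - κ) := by
      rw [← pow_add]; congr 1; omega
    rw [hpow, mul_assoc]
    congr 1
    -- the main identity
    have hbin : (1 - y) ^ (m - κ)
        = 1 + ∑ i ∈ range (m + 1), (-1) ^ (i + 1) * y ^ (i + 1) * ((m - κ).choose (i + 1) : ℝ) := by
      have h1 : (1 - y) ^ (m - κ) = ∑ j ∈ range (m - κ + 1), (-y) ^ j * ((m - κ).choose j : ℝ) := by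
        have := add_pow (-y) 1 (m - κ)
        simp only [one_pow, mul_one] at this
        rw [← this]; ring
      have h2 : ∑ j ∈ range (m - κ + 1), (-y) ^ j * ((m - κ).choose j : ℝ)
          = ∑ j ∈ range (m + 1 + 1), (-y) ^ j * ((m - κ).choose j : ℝ) := by
        apply Finset.sum_subset
        · intro j hj; rw [Finset.mem_range] at hj ⊢; omega
        · intro j _ hj
          rw [Finset.mem_range, not_lt] at hj
          rw [Nat.choose_eq_zero_of_lt (by omega)]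
          simp
      rw [h1, h2, Finset.sum_range_succ']
      simp only [pow_zero, Nat.choose_zero_right, Nat.cast_one, mul_one]
      rw [add_comm]
      congr 1
      refine Finset.sum_congr rfl fun i _ => ?_
      rw [neg_pow]
    have hsum : ∑ p ∈ Ioc κ m, (-1) ^ (p - κ - 1) * (2 * (p : ℝ)) * y * Phi κ p y * nu p m
        = (-1) ^ (κ + 1) / 4 ^ m * ∑ i ∈ range (m + 1), (-1) ^ i * y ^ (i + 1) /
            ((i.factorial : ℝ) * ((i + 1).factorial : ℝ)) * eS κ m i := by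
      have h1 : ∀ p ∈ Ioc κ m, (-1) ^ (p - κ - 1) * (2 * (p : ℝ)) * y * Phi κ p y * nu p m
          = ∑ i ∈ range (m + 1), (-1) ^ (κ + 1) / 4 ^ m * ((-1) ^ i * y ^ (i + 1) /
            ((i.factorial : ℝ) * ((i + 1).factorial : ℝ)) *
              ((2 * (p : ℝ)) * ((2 * m).choose (m + p) : ℝ) *
                ∏ r ∈ range i, ((p : ℝ) ^ 2 - ((κ : ℝ) + 1 + r) ^ 2))) := by
        intro p hp
        rw [Finset.mem_Ioc] at hp
        rw [Phi_ext κ p m y hp.1 hp.2, nu]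
        have hs : ((-1 : ℝ)) ^ (p - κ - 1) * (-1) ^ p = (-1) ^ (κ + 1) := by
          obtain ⟨t, rfl⟩ : ∃ t, p = κ + 1 + t := ⟨p - κ - 1, by omega⟩
          have : κ + 1 + t - κ - 1 = t := by omega
          rw [this, ← pow_add]
          have : t + (κ + 1 + t) = (κ + 1) + 2 * t := by ring
          rw [this, pow_add, pow_mul]
          simp
        rw [Finset.mul_sum, Finset.sum_mul]
        refine Finset.sum_congr rfl fun i _ => ?_
        rw [← hs, pow_succ]
        ring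
      rw [Finset.sum_congr rfl h1, Finset.sum_comm, Finset.mul_sum]
      refine Finset.sum_congr rfl fun i _ => ?_
      rw [eS, Finset.mul_sum, Finset.mul_sum]
    rw [hsum]
    have hcl : ∑ i ∈ range (m + 1), (-1) ^ i * y ^ (i + 1) /
            ((i.factorial : ℝ) * ((i + 1).factorial : ℝ)) * eS κ m i
        = ((2 * m).choose (m + κ) : ℝ) *
          ∑ i ∈ range (m + 1), (-1) ^ i * y ^ (i + 1) * ((m - κ).choose (i + 1) : ℝ) := by
      rw [Finset.mul_sum]
      refine Finset.sum_congr rfl fun i _ => ?_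
      rw [eS_closed]
      have h1 : (i.factorial : ℝ) ≠ 0 := by exact_mod_cast Nat.factorial_ne_zero i
      have h2 : ((i + 1).factorial : ℝ) ≠ 0 := by exact_mod_cast Nat.factorial_ne_zero (i + 1)
      field_simp
    rw [hcl, hbin, nu]
    have hneg : ∑ i ∈ range (m + 1), (-1) ^ (i + 1) * y ^ (i + 1) * ((m - κ).choose (i + 1) : ℝ)
        = - ∑ i ∈ range (m + 1), (-1) ^ i * y ^ (i + 1) * ((m - κ).choose (i + 1) : ℝ) := by
      rw [← Finset.sum_neg_distrib]
      refine Finset.sum_congr rfl fun i _ => ?_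
      rw [pow_succ]; ring
    rw [hneg, pow_succ]
    ring
  · have h1 : Ioc κ m = ∅ := by rw [Finset.Ioc_eq_empty]; omega
    have h2 : nu κ m = 0 := by
      unfold nu
      rw [Nat.choose_eq_zero_of_lt (by omega)]
      simp
    simp [h1, h2]

/-! ### bounds for `Phi` -/

theorem alt_bounds : ∀ (n : ℕ) (a : ℕ → ℝ), (∀ i, 0 ≤ a i) → (∀ i, a (i + 1) ≤ a i) →
    0 ≤ ∑ i ∈ range n, (-1) ^ i * a i ∧ ∑ i ∈ range n, (-1) ^ i * a i ≤ a 0 := by
  intro n
  induction n with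
  | zero => intro a h0 _; simpa using h0 0
  | succ n ih =>
    intro a h0 h1
    obtain ⟨b1, b2⟩ := ih (fun i => a (i + 1)) (fun i => h0 _) (fun i => h1 _)
    rw [Finset.sum_range_succ']
    have : ∑ k ∈ range n, (-1 : ℝ) ^ (k + 1) * a (k + 1)
        = - ∑ k ∈ range n, (-1) ^ k * a (k + 1) := by
      rw [← Finset.sum_neg_distrib]
      refine Finset.sum_congr rfl fun i _ => ?_
      rw [pow_succ]; ring
    rw [this]
    simp only [pow_zero, one_mul]
    have := h1 0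
    simp only [zero_add] at this b2
    constructor <;> linarith

theorem pP : StP := by
  intro κ p y hp hy hb
  set a : ℕ → ℝ := fun i => y ^ i *
    (∏ r ∈ range i, ((p : ℝ) ^ 2 - ((κ : ℝ) + 1 + r) ^ 2)) /
      ((i.factorial : ℝ) * ((i + 1).factorial : ℝ)) with ha
  have hprod : ∀ i : ℕ, 0 ≤ ∏ r ∈ range i, ((p : ℝ) ^ 2 - ((κ : ℝ) + 1 + r) ^ 2) := by
    intro i
    by_cases hi : p < κ + 1 + i
    · rw [e_prod_zero κ p i hp hi]
    · apply Finset.prod_nonneg
      intro r hr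
      rw [Finset.mem_range] at hr
      have h1 : (κ : ℝ) + 1 + r ≤ p := by
        have : κ + 1 + r ≤ p := by omega
        exact_mod_cast this
      have h2 : (0 : ℝ) ≤ (κ : ℝ) + 1 + r := by positivity
      nlinarith
  have h0 : ∀ i, 0 ≤ a i := by
    intro i
    have := hprod i
    simp only [ha]
    positivity
  have h1 : ∀ i, a (i + 1) ≤ a i := by
    intro i
    have hai := h0 i
    have e1 : a (i + 1) = a i * (((p : ℝ) ^ 2 - ((κ : ℝ) + 1 + i) ^ 2) * y
        / (((i : ℝ) + 1) * ((i : ℝ) + 2))) := by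
      simp only [ha]
      rw [Finset.prod_range_succ, pow_succ]
      have f1 : ((i + 1).factorial : ℝ) = ((i : ℝ) + 1) * (i.factorial : ℝ) := by
        rw [Nat.factorial_succ]; push_cast; ring
      have f2 : ((i + 1 + 1).factorial : ℝ) = ((i : ℝ) + 2) * ((i + 1).factorial : ℝ) := by
        rw [Nat.factorial_succ]; push_cast; ring
      have n1 : (i.factorial : ℝ) ≠ 0 := by exact_mod_cast Nat.factorial_ne_zero i
      have n2 : (i : ℝ) + 1 ≠ 0 := by positivity
      have n3 : (i : ℝ) + 2 ≠ 0 := by positivity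
      rw [f2, f1]
      field_simp
    have e2 : ((p : ℝ) ^ 2 - ((κ : ℝ) + 1 + i) ^ 2) * y / (((i : ℝ) + 1) * ((i : ℝ) + 2)) ≤ 1 := by
      rw [div_le_one (by positivity)]
      have hi : (0 : ℝ) ≤ i := Nat.cast_nonneg i
      have hk : (0 : ℝ) ≤ κ := Nat.cast_nonneg κ
      have : ((p : ℝ) ^ 2 - ((κ : ℝ) + 1 + i) ^ 2) * y
          ≤ ((p : ℝ) ^ 2 - ((κ : ℝ) + 1) ^ 2) * y := by
        apply mul_le_mul_of_nonneg_right _ hy
        nlinarith
      nlinarith
    rw [e1]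
    calc a i * _ ≤ a i * 1 := mul_le_mul_of_nonneg_left e2 hai
      _ = a i := mul_one _
  have hPhi : Phi κ p y = ∑ i ∈ range (p + 1), (-1) ^ i * a i := by
    unfold Phi
    refine Finset.sum_congr rfl fun i _ => ?_
    simp only [ha]
    ring
  obtain ⟨b1, b2⟩ := alt_bounds p (fun i => a (i + 1)) (fun i => h0 _) (fun i => h1 _)
  rw [hPhi, Finset.sum_range_succ']
  have hn : ∑ k ∈ range p, (-1 : ℝ) ^ (k + 1) * a (k + 1)
      = - ∑ k ∈ range p, (-1) ^ k * a (k + 1) := by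
    rw [← Finset.sum_neg_distrib]
    refine Finset.sum_congr rfl fun i _ => ?_
    rw [pow_succ]; ring
  rw [hn]
  have a0 : a 0 = 1 := by simp [ha]
  have a1 : a 1 = ((p : ℝ) ^ 2 - ((κ : ℝ) + 1) ^ 2) * y / 2 := by
    simp [ha, Nat.factorial]; ring
  simp only [zero_add] at b2
  rw [a1] at b2
  simp only [pow_zero, one_mul, a0]
  constructor <;> linarith

end Pool.Agent.Helper35.QP
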