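import Pool.Agent.Helper35.QP.St

/-!
# (QPOS) module G: `D` at `t = 1`
-/

set_option autoImplicit false

namespace Pool.Agent.Helper35.QP

open Finset

private theorem G_g (n : ℕ) : g (n + 1) = (2 * (n : ℝ) + 1) / (2 * (n : ℝ) + 2) * g n := by
  unfold g
  have h1 : ((n : ℝ) + 1) * (Nat.centralBinom (n + 1) : ℝ) = 2 * (2 * (n : ℝ) + 1) * (Nat.centralBinom n : ℝ) := by
    have h := Nat.succ_mul_centralBinom_succ n
    exact_mod_cast h
  have h2 : (Nat.centralBinom (n + 1) : ℝ) = 2 * (2 * (n : ℝ) + 1) * (Nat.centralBinom n : ℝ) / ((n : ℝ) + 1) := by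
    rw [eq_div_iff (by positivity), ← h1]; ring
  rw [h2, pow_succ]
  field_simp
  ring

private theorem G_nu0 (m : ℕ) : nu 0 (m + 1) = nu 0 m / 2 - nu 1 m / 2 := by
  unfold nu
  have h : ((2 * (m + 1)).choose (m + 1 + 0)) = 2 * ((2 * m).choose (m + 0)) + 2 * ((2 * m).choose (m + 1)) := by
    have h1 : 2 * (m + 1) = 2 * m + 1 + 1 := by ring
    rw [h1, add_zero, add_zero, Nat.choose_succ_succ (2 * m + 1) m, Nat.choose_succ_succ (2 * m) m]
    have h2 : (2 * m + 1).choose m = (2 * m + 1).choose (m + 1) := by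
      rw [← Nat.choose_symm_half m]
    rw [h2, Nat.choose_succ_succ (2 * m) m]
    ring
  rw [h, pow_succ]
  push_cast
  field_simp
  ring

private theorem G_nu (p m : ℕ) : nu (p + 1) (m + 1) = nu (p + 1) m / 2 - (nu p m + nu (p + 2) m) / 4 := by
  unfold nu
  have h : ((2 * (m + 1)).choose (m + 1 + (p + 1))) =
      ((2 * m).choose (m + p)) + 2 * ((2 * m).choose (m + (p + 1))) + ((2 * m).choose (m + (p + 2))) := by
    have h1 : 2 * (m + 1) = 2 * m + 1 + 1 := by ring
    have h2 : m + 1 + (p + 1) = (m + p + 1) + 1 := by ring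
    rw [h1, h2, Nat.choose_succ_succ (2 * m + 1) (m + p + 1), Nat.choose_succ_succ (2 * m) (m + p),
      Nat.choose_succ_succ (2 * m) (m + p + 1)]
    have h3 : m + (p + 1) = m + p + 1 := by ring
    have h4 : m + (p + 2) = m + p + 1 + 1 := by ring
    rw [h3, h4]
    ring
  rw [h, pow_succ, pow_succ, pow_succ]
  push_cast
  field_simp
  ring

private theorem G_F0 (j : ℕ) : F (fun m => nu 0 (m + 1)) j 1 = D 0 j 1 / 2 - D 1 j 1 / 2 := by
  unfold D F
  rw [Finset.sum_div, Finset.sum_div, ← Finset.sum_sub_distrib]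
  refine Finset.sum_congr rfl fun m _ => ?_
  beta_reduce
  rw [G_nu0]
  ring

private theorem G_F (p j : ℕ) :
    F (fun m => nu (p + 1) (m + 1)) j 1 = D (p + 1) j 1 / 2 - (D p j 1 + D (p + 2) j 1) / 4 := by
  unfold D F
  rw [← Finset.sum_add_distrib, Finset.sum_div, Finset.sum_div, ← Finset.sum_sub_distrib]
  refine Finset.sum_congr rfl fun m _ => ?_
  beta_reduce
  rw [G_nu]
  ring

private theorem G_rec0 (hR : StR) (j : ℕ) :
    ((j : ℝ) + 2) * D 0 (j + 2) 1 + ((j : ℝ) + 1) * D 0 j 1 = (2 * (j : ℝ) + 3) * D 1 (j + 1) 1 := by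
  have h := hR (nu 0) j 1
  rw [G_F0] at h
  unfold D at h ⊢
  rw [h]
  ring

private theorem G_rec (hR : StR) (p j : ℕ) :
    ((j : ℝ) + 2) * D (p + 1) (j + 2) 1 + ((j : ℝ) + 1) * D (p + 1) j 1 =
      (2 * (j : ℝ) + 3) / 2 * (D p (j + 1) 1 + D (p + 2) (j + 1) 1) := by
  have h := hR (nu (p + 1)) j 1
  rw [G_F] at h
  unfold D at h ⊢
  rw [h]
  ring

private theorem G_main (hR : StR) (j : ℕ) : ∀ p : ℕ, (∀ i, j = p + 2 * i → D p j 1 = g (p + i) * g i) ∧
    ((∀ i, j ≠ p + 2 * i) → D p j 1 = 0) := by
  induction j using Nat.twoStepInduction with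
  | zero =>
    intro p
    have hD : D p 0 1 = (-1) ^ p * ((0 : ℕ).choose p : ℝ) := by
      simp [D, F, lc, nu]
    constructor
    · intro i hi
      have h1 : p = 0 := by omega
      have h2 : i = 0 := by omega
      subst h1; subst h2
      rw [hD]; simp [g]
    · intro h
      have h1 : p ≠ 0 := fun h0 => h 0 (by omega)
      rw [hD]
      obtain ⟨k, rfl⟩ := Nat.exists_eq_succ_of_ne_zero h1
      simp
  | one =>
    intro p
    have hD : D p 1 1 = (-1) ^ p * (((0 : ℕ).choose p : ℝ) - ((2 : ℕ).choose (1 + p) : ℝ) / 2) := by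
      simp [D, F, lc, nu, Finset.sum_range_succ]
      ring
    constructor
    · intro i hi
      have h1 : p = 1 := by omega
      have h2 : i = 0 := by omega
      subst h1; subst h2
      rw [hD]; simp [g, Nat.centralBinom]
      norm_num
    · intro h
      rw [hD]
      rcases p with _ | _ | k
      · simp
      · exact absurd rfl (h 0)
      · have h3 : (2 : ℕ).choose (1 + (k + 1 + 1)) = 0 := Nat.choose_eq_zero_of_lt (by omega)
        have h4 : (0 : ℕ).choose (k + 1 + 1) = 0 := Nat.choose_eq_zero_of_lt (by omega)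
        rw [h3, h4]; simp
  | more j ih1 ih2 =>
    intro p
    have hj : ((j : ℝ) + 2) ≠ 0 := by positivity
    rcases p with _ | p
    · have hr := G_rec0 hR j
      constructor
      · intro i hi
        obtain ⟨i, rfl⟩ : ∃ k, i = k + 1 := ⟨i - 1, by omega⟩
        have hj2 : j = 2 * i := by omega
        have e1 := (ih1 0).1 i (by omega)
        have e2 := (ih2 1).1 i (by omega)
        rw [e1, e2] at hr
        have h1 : D 0 (j + 2) 1 = ((2 * (j : ℝ) + 3) * (g (1 + i) * g i) - ((j : ℝ) + 1) * (g (0 + i) * g i)) /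
            ((j : ℝ) + 2) := by
          rw [eq_div_iff hj]; linarith
        rw [h1, zero_add, zero_add, add_comm 1 i, G_g i, hj2]
        push_cast
        field_simp
        ring
      · intro h
        have e1 := (ih1 0).2 (fun i hi => h (i + 1) (by omega))
        have e2 := (ih2 1).2 (fun i hi => h (i + 1) (by omega))
        rw [e1, e2, mul_zero, mul_zero, add_zero] at hr
        exact (mul_eq_zero.1 hr).resolve_left hj
    · have hr := G_rec hR p j
      constructor
      · intro i hi
        rcases i with _ | i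
        · have e1 := (ih1 (p + 1)).2 (fun i hi => by omega)
          have e2 := (ih2 p).1 0 (by omega)
          have e3 := (ih2 (p + 2)).2 (fun i hi => by omega)
          rw [e1, e2, e3] at hr
          have h1 : D (p + 1) (j + 2) 1 = ((2 * (j : ℝ) + 3) / 2 * (g (p + 0) * g 0)) / ((j : ℝ) + 2) := by
            rw [eq_div_iff hj]; linarith
          have hp : (j : ℝ) = (p : ℝ) - 1 := by
            have : p = j + 1 := by omega
            rw [this]; push_cast; ring
          have hp2 : (p : ℝ) + 1 ≠ 0 := by positivity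
          rw [h1, add_zero, add_zero, G_g p, hp]
          have h2 : (p : ℝ) - 1 + 2 = p + 1 := by ring
          rw [h2]
          field_simp
          ring
        · have e1 := (ih1 (p + 1)).1 i (by omega)
          have e2 := (ih2 p).1 (i + 1) (by omega)
          have e3 := (ih2 (p + 2)).1 i (by omega)
          rw [e1, e2, e3] at hr
          have h1 : D (p + 1) (j + 2) 1 = ((2 * (j : ℝ) + 3) / 2 * (g (p + (i + 1)) * g (i + 1) +
              g (p + 2 + i) * g i) - ((j : ℝ) + 1) * (g (p + 1 + i) * g i)) / ((j : ℝ) + 2) := by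
            rw [eq_div_iff hj]; linarith
          have hp : (j : ℝ) = (p : ℝ) + 2 * i + 1 := by
            have : j = p + 2 * i + 1 := by omega
            rw [this]; push_cast; ring
          have e4 : p + (i + 1) = p + i + 1 := by ring
          have e5 : p + 2 + i = p + i + 1 + 1 := by ring
          have e6 : p + 1 + i = p + i + 1 := by ring
          have e7 : p + 1 + (i + 1) = p + i + 1 + 1 := by ring
          rw [h1, e4, e5, e6, e7, G_g (p + i + 1), G_g i, hp]
          have hd : (p : ℝ) + 2 * i + 1 + 2 ≠ 0 := by positivity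
          push_cast
          field_simp
          ring
      · intro h
        have e1 := (ih1 (p + 1)).2 (fun i hi => h (i + 1) (by omega))
        have e2 := (ih2 p).2 (fun i hi => h i (by omega))
        have e3 := (ih2 (p + 2)).2 (fun i hi => h (i + 1) (by omega))
        rw [e1, e2, e3] at hr
        have h1 : ((j : ℝ) + 2) * D (p + 1) (j + 2) 1 = 0 := by linarith
        exact (mul_eq_zero.1 h1).resolve_left hj

theorem pG1 (hR : StR) : StG1 := fun p i => (G_main hR (p + 2 * i) p).1 i rfl

theorem pG2 (hR : StR) : StG2 := fun p i => (G_main hR (p + 2 * i + 1) p).2 (fun k hk => by omega)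

end Pool.Agent.Helper35.QP
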