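import Pool.Agent.Helper35.QP.St

/-! QPOS module K (helper31): the linearisation at `T = 1`. -/

namespace Pool.Agent.Helper35.QP

open Finset

/-- `g` extended by zero to the integers -/
private noncomputable def Kg (i : ℤ) : ℝ := if 0 ≤ i then g i.toNat else 0

private theorem Kg_neg (i : ℤ) (h : i < 0) : Kg i = 0 := by
  unfold Kg
  rw [if_neg (by omega)]

private theorem Kg_nat (i : ℕ) : Kg (i : ℤ) = g i := by
  unfold Kg
  rw [if_pos (by omega), Int.toNat_natCast]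

private theorem Kg_pos (i : ℤ) (h : 0 ≤ i) : 0 < Kg i := by
  obtain ⟨m, rfl⟩ := Int.eq_ofNat_of_zero_le h
  rw [Kg_nat]
  unfold g
  have := Nat.centralBinom_pos m
  positivity

private theorem g_rec (m : ℕ) : 2 * ((m : ℝ) + 1) * g (m + 1) = (2 * m + 1) * g m := by
  have h := Nat.succ_mul_centralBinom_succ m
  have h2 : (((m + 1) * Nat.centralBinom (m + 1) : ℕ) : ℝ) = ((2 * (2 * m + 1) * Nat.centralBinom m : ℕ) : ℝ) := by
    exact_mod_cast h
  push_cast at h2
  unfold g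
  rw [pow_succ]
  have h4 : (4 : ℝ) ^ m ≠ 0 := by positivity
  calc 2 * ((m : ℝ) + 1) * ((Nat.centralBinom (m + 1) : ℝ) / (4 ^ m * 4))
      = 2 * (((m : ℝ) + 1) * (Nat.centralBinom (m + 1) : ℝ)) / (4 ^ m * 4) := by ring
    _ = _ := by
      rw [h2]
      field_simp
      ring

private theorem Kg_rec (i : ℤ) : 2 * ((i : ℝ) + 1) * Kg (i + 1) = (2 * i + 1) * Kg i := by
  rcases lt_trichotomy i (-1) with h | h | h
  · rw [Kg_neg _ (by omega), Kg_neg _ (by omega)]
    ring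
  · subst h
    rw [Kg_neg (-1) (by omega)]
    push_cast
    ring
  · obtain ⟨m, rfl⟩ := Int.eq_ofNat_of_zero_le (show 0 ≤ i by omega)
    have h1 : ((m : ℤ) + 1) = ((m + 1 : ℕ) : ℤ) := by push_cast; ring
    rw [h1, Kg_nat, Kg_nat]
    have := g_rec m
    push_cast
    exact this

private theorem Kg_rec' (i : ℤ) : (2 * (i : ℝ) - 1) * Kg (i - 1) = 2 * i * Kg i := by
  have h := Kg_rec (i - 1)
  rw [show i - 1 + 1 = i by ring] at h
  push_cast at h
  linarith

/-- even value -/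
private noncomputable def Ke (σ n k j : ℤ) : ℝ :=
  ((σ : ℝ) - j) * Kg (σ - k) * Kg (σ - n) * Kg (σ - j) / Kg σ

/-- odd value -/
private noncomputable def Ko (s n k j : ℤ) : ℝ :=
  (2 * ((s : ℝ) - n) + 1) * (2 * ((s : ℝ) - k) + 1) / (2 * (2 * (s : ℝ) + 1)) *
    Kg (s - k) * Kg (s - n) * Kg (s - j) / Kg s

private theorem evn_rat (α β δ p w c u v : ℝ) (hp : p = 2 * (α + β + δ) + 1) (hw : w = 2 * δ - 1)
    (hc : c = α + β + δ) (hu : u = 2 * (α + δ) - 1) (hv : v = 2 * (α + δ) + 1)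
    (hp0 : p ≠ 0) (hw0 : w ≠ 0) (hc0 : c ≠ 0) (hu0 : u ≠ 0) (hv0 : v ≠ 0) :
    (α + β + 1) * ((2 * α + 1) * (2 * β + 1) * δ / (p * w)) + (α + β) * (α * β / c)
      = (2 * (α + β) + 1) * ((α + δ) / u * ((2 * β + 1) * α * δ / (c * w))
        + δ / (u * v) + (α + δ) / v * ((2 * α + 1) * β / p)) := by
  field_simp
  rw [hp, hw, hc, hu, hv]
  ring

private theorem odd_rat (a b d x y t r u v : ℝ) (hx : x = 2 * a + 1) (hy : y = 2 * b + 1)
    (ht : t = a + b + d + 2) (hr : r = 2 * (a + b + d + 1) + 1)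
    (hu : u = 2 * (a + d + 1) - 1) (hv : v = 2 * (a + d + 1) + 1)
    (hx0 : x ≠ 0) (hy0 : y ≠ 0) (ht0 : t ≠ 0) (hu0 : u ≠ 0) (hv0 : v ≠ 0) :
    (a + b + 2) * d + (a + b + 1) * ((2 * d + 1) * (a + 1) * (b + 1) * r / (x * y * t))
      = (2 * (a + b + 1) + 1) * ((a + d + 1) / u * (d * (a + 1) * r / (x * t))
        + (a + 1) * (b + 1) / t / (u * v) + (a + d + 1) / v * ((2 * d + 1) * (b + 1) / y)) := by
  field_simp
  rw [hx, hy, ht, hr, hu, hv]
  ring

private theorem evn_gen (α β δ σ ga gb gd gs ga' gb' gd' gs' p w u v z : ℝ) (hσ : σ = α + β + δ)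
    (hp : p = 2 * σ + 1) (hw : w = 2 * δ - 1)
    (hu : u = 2 * (α + δ) - 1) (hv : v = 2 * (α + δ) + 1)
    (hp0 : p ≠ 0) (hw0 : w ≠ 0) (hc0 : σ ≠ 0) (hu0 : u ≠ 0) (hv0 : v ≠ 0)
    (h1 : (2 * α - 1) * ga' = 2 * α * ga) (h2 : (2 * β - 1) * gb' = 2 * β * gb)
    (h3 : w * gd' = 2 * δ * gd) (h4 : z * gs' = 2 * σ * gs) :
    (α + β + 1) * ((2 * α + 1) * (2 * β + 1) / (2 * p) * gb * ga * gd' / gs)
      + (α + β) * ((2 * α - 1) * (2 * β - 1) / (2 * z) * gb' * ga' * gd / gs')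
    = (2 * (α + β) + 1) * ((α + δ) / u * ((2 * α - 1) * (2 * β + 1) / (2 * z) *
        gb * ga' * gd' / gs') + δ * gb * ga * gd / gs / (u * v)
        + (α + δ) / v * ((2 * α + 1) * (2 * β - 1) / (2 * p) * gb' * ga * gd / gs)) := by
  have h3' : gd' = 2 * δ * gd / w := by
    rw [eq_div_iff hw0]
    linarith
  have e1 : (2 * α - 1) * (2 * β - 1) / (2 * z) * gb' * ga' * gd / gs'
      = α * β / σ * (ga * gb * gd / gs) := by
    calc _ = ((2 * α - 1) * ga') * ((2 * β - 1) * gb') * gd / (2 * (z * gs')) := by ring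
      _ = _ := by
        rw [h1, h2, h4]
        ring
  have e2 : (2 * α + 1) * (2 * β + 1) / (2 * p) * gb * ga * gd' / gs
      = (2 * α + 1) * (2 * β + 1) * δ / (p * w) * (ga * gb * gd / gs) := by
    rw [h3']
    ring
  have e3 : (2 * α + 1) * (2 * β - 1) / (2 * p) * gb' * ga * gd / gs
      = (2 * α + 1) * β / p * (ga * gb * gd / gs) := by
    calc _ = (2 * α + 1) * ((2 * β - 1) * gb') * ga * gd / (2 * p * gs) := by ring
      _ = _ := by
        rw [h2]
        ring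
  have e4 : (2 * α - 1) * (2 * β + 1) / (2 * z) * gb * ga' * gd' / gs'
      = (2 * β + 1) * α * δ / (σ * w) * (ga * gb * gd / gs) := by
    calc _ = ((2 * α - 1) * ga') * (2 * β + 1) * gb * gd' / (2 * (z * gs')) := by ring
      _ = _ := by
        rw [h1, h4, h3']
        ring
  rw [e1, e2, e3, e4]
  have h := evn_rat α β δ p w σ u v (by rw [hp, hσ]) hw hσ hu hv hp0 hw0 hc0 hu0 hv0
  calc _ = ((α + β + 1) * ((2 * α + 1) * (2 * β + 1) * δ / (p * w)) + (α + β) * (α * β / σ))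
        * (ga * gb * gd / gs) := by ring
    _ = _ := by
      rw [h]
      ring

private theorem odd_gen (a b d s ga gb gd gs ga' gb' gd' gs' x y t r u v : ℝ) (hs : s = a + b + d + 1)
    (hx : x = 2 * a + 1) (hy : y = 2 * b + 1)
    (ht : t = s + 1) (hr : r = 2 * s + 1)
    (hu : u = 2 * (a + d + 1) - 1) (hv : v = 2 * (a + d + 1) + 1)
    (hx0 : x ≠ 0) (hy0 : y ≠ 0) (ht0 : t ≠ 0) (hr0 : r ≠ 0) (hu0 : u ≠ 0) (hv0 : v ≠ 0)
    (h1 : 2 * (a + 1) * ga' = x * ga) (h2 : 2 * (b + 1) * gb' = y * gb)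
    (h3 : 2 * (d + 1) * gd' = (2 * d + 1) * gd) (h4 : 2 * t * gs' = r * gs) :
    (a + b + 2) * (d * gb' * ga' * gd / gs') + (a + b + 1) * ((d + 1) * gb * ga * gd' / gs)
      = (2 * (a + b + 1) + 1) * ((a + d + 1) / u * (d * gb' * ga * gd / gs)
        + (x * y / (2 * r) * gb * ga * gd / gs) / (u * v)
        + (a + d + 1) / v * ((d + 1) * gb * ga' * gd' / gs')) := by
  have h1' : ga = 2 * (a + 1) * ga' / x := by
    rw [eq_div_iff hx0]
    linarith
  have h2' : gb = 2 * (b + 1) * gb' / y := by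
    rw [eq_div_iff hy0]
    linarith
  have h4' : gs = 2 * t * gs' / r := by
    rw [eq_div_iff hr0]
    linarith
  have e1 : (d + 1) * gb * ga * gd' / gs
      = (2 * d + 1) * (a + 1) * (b + 1) * r / (x * y * t) * (ga' * gb' * gd / gs') := by
    calc _ = (2 * (d + 1) * gd') / 2 * gb * ga / gs := by ring
      _ = _ := by
        rw [h3, h1', h2', h4', div_div_eq_mul_div]
        ring
  have e2 : d * gb' * ga' * gd / gs' = d * (ga' * gb' * gd / gs') := by ring
  have e3 : x * y / (2 * r) * gb * ga * gd / gs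
      = (a + 1) * (b + 1) / t * (ga' * gb' * gd / gs') := by
    calc _ = (x * ga) * (y * gb) * gd / (2 * (r * gs)) := by ring
      _ = _ := by
        rw [← h1, ← h2, ← h4]
        ring
  have e4 : (d + 1) * gb * ga' * gd' / gs'
      = (2 * d + 1) * (b + 1) / y * (ga' * gb' * gd / gs') := by
    calc _ = (2 * (d + 1) * gd') / 2 * gb * ga' / gs' := by ring
      _ = _ := by
        rw [h3, h2']
        ring
  have e5 : d * gb' * ga * gd / gs
      = d * (a + 1) * r / (x * t) * (ga' * gb' * gd / gs') := by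
    rw [h1', h4', div_div_eq_mul_div]
    ring
  rw [e1, e2, e3, e4, e5]
  have h := odd_rat a b d x y t r u v hx hy (by rw [ht, hs]; ring) (by rw [hr, hs]) hu hv
    hx0 hy0 ht0 hu0 hv0
  calc _ = ((a + b + 2) * d + (a + b + 1) * ((2 * d + 1) * (a + 1) * (b + 1) * r / (x * y * t)))
        * (ga' * gb' * gd / gs') := by ring
    _ = _ := by
      rw [h]
      ring

private theorem two_int_ne (i : ℤ) : (2 * (i : ℝ) + 1) ≠ 0 := by
  intro h
  have h1 : ((2 * i + 1 : ℤ) : ℝ) = 0 := by push_cast; exact h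
  have h2 : (2 * i + 1 : ℤ) = 0 := by exact_mod_cast h1
  omega

private theorem two_int_ne' (i : ℤ) : (2 * (i : ℝ) - 1) ≠ 0 := by
  intro h
  have h1 : ((2 * i - 1 : ℤ) : ℝ) = 0 := by push_cast; exact h
  have h2 : (2 * i - 1 : ℤ) = 0 := by exact_mod_cast h1
  omega

private theorem evn_rec (n k j σ : ℤ) (h : n + k + j = 2 * σ) (hn : 1 ≤ n) (hk : 1 ≤ k)
    (hj : 0 ≤ j) :
    ((j : ℝ) + 1) * Ko σ n k (j + 1) + j * Ko (σ - 1) n k (j - 1)
      = (2 * (j : ℝ) + 1) * (k / (2 * k - 1) * Ko (σ - 1) n (k - 1) j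
        + Ke σ n k j / ((2 * k - 1) * (2 * k + 1)) + k / (2 * k + 1) * Ko σ n (k + 1) j) := by
  have hR : (n : ℝ) + k + j = 2 * σ := by exact_mod_cast h
  have hσ : (σ : ℝ) ≠ 0 := by
    have : σ ≠ 0 := by omega
    exact_mod_cast this
  have ha := Kg_rec' (σ - n)
  have hb := Kg_rec' (σ - k)
  have hd := Kg_rec' (σ - j)
  have hs := Kg_rec' σ
  have hδ := two_int_ne' (σ - j)
  push_cast at ha hb hd hδ
  have key := evn_gen ((σ : ℝ) - n) ((σ : ℝ) - k) ((σ : ℝ) - j) σ (Kg (σ - n)) (Kg (σ - k)) (Kg (σ - j))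
    (Kg σ) (Kg (σ - n - 1)) (Kg (σ - k - 1)) (Kg (σ - j - 1)) (Kg (σ - 1)) (2 * σ + 1)
    (2 * ((σ : ℝ) - j) - 1) (2 * (k : ℝ) - 1) (2 * (k : ℝ) + 1) (2 * σ - 1) (by linarith) rfl rfl
    (by linarith) (by linarith) (two_int_ne σ) hδ hσ (two_int_ne' k) (two_int_ne k) ha hb hd hs
  unfold Ko Ke
  rw [show σ - (j + 1) = σ - j - 1 by ring, show σ - 1 - k = σ - k - 1 by ring,
    show σ - 1 - n = σ - n - 1 by ring, show σ - 1 - (j - 1) = σ - j by ring,
    show σ - 1 - (k - 1) = σ - k by ring, show σ - 1 - j = σ - j - 1 by ring,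
    show σ - (k + 1) = σ - k - 1 by ring]
  push_cast
  have c1 : ((σ : ℝ) - n) + (σ - k) = j := by linarith
  have c2 : ((σ : ℝ) - n) + (σ - j) = k := by linarith
  rw [c1, c2] at key
  have d1 : 2 * ((σ : ℝ) - 1 - n) + 1 = 2 * (σ - n) - 1 := by ring
  have d2 : 2 * ((σ : ℝ) - 1 - k) + 1 = 2 * (σ - k) - 1 := by ring
  have d3 : 2 * ((σ : ℝ) - 1) + 1 = 2 * σ - 1 := by ring
  have d4 : 2 * ((σ : ℝ) - 1 - (k - 1)) + 1 = 2 * (σ - k) + 1 := by ring
  have d5 : 2 * ((σ : ℝ) - (k + 1)) + 1 = 2 * (σ - k) - 1 := by ring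
  rw [d1, d2, d3, d4, d5]
  exact key

private theorem odd_rec (n k j s : ℤ) (h : n + k + j = 2 * s + 1) (hn : 1 ≤ n) (hk : 1 ≤ k)
    (hj : 0 ≤ j) :
    ((j : ℝ) + 1) * Ke (s + 1) n k (j + 1) + j * Ke s n k (j - 1)
      = (2 * (j : ℝ) + 1) * (k / (2 * k - 1) * Ke s n (k - 1) j
        + Ko s n k j / ((2 * k - 1) * (2 * k + 1)) + k / (2 * k + 1) * Ke (s + 1) n (k + 1) j) := by
  have hR : (n : ℝ) + k + j = 2 * s + 1 := by exact_mod_cast h
  have hσ : (s : ℝ) + 1 ≠ 0 := by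
    have h1 : s + 1 ≠ 0 := by omega
    intro h2
    exact h1 (by exact_mod_cast h2)
  have ha := Kg_rec (s - n)
  have hb := Kg_rec (s - k)
  have hd := Kg_rec (s - j)
  have hs := Kg_rec s
  have hx := two_int_ne (s - n)
  have hy := two_int_ne (s - k)
  push_cast at ha hb hd hx hy
  have key := odd_gen ((s : ℝ) - n) ((s : ℝ) - k) ((s : ℝ) - j) s (Kg (s - n)) (Kg (s - k)) (Kg (s - j))
    (Kg s) (Kg (s - n + 1)) (Kg (s - k + 1)) (Kg (s - j + 1)) (Kg (s + 1))
    (2 * ((s : ℝ) - n) + 1) (2 * ((s : ℝ) - k) + 1) (s + 1) (2 * s + 1)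
    (2 * (k : ℝ) - 1) (2 * (k : ℝ) + 1) (by linarith) rfl rfl rfl rfl
    (by linarith) (by linarith) hx hy hσ (two_int_ne s) (two_int_ne' k) (two_int_ne k) ha hb hd hs
  unfold Ko Ke
  rw [show s + 1 - k = s - k + 1 by ring, show s + 1 - n = s - n + 1 by ring,
    show s + 1 - (j + 1) = s - j by ring, show s - (j - 1) = s - j + 1 by ring,
    show s - (k - 1) = s - k + 1 by ring, show s + 1 - (k + 1) = s - k by ring,
    show s + 1 - j = s - j + 1 by ring]
  push_cast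
  have c1 : ((s : ℝ) - n) + (s - k) + 1 = j := by linarith
  have c1' : ((s : ℝ) - n) + (s - k) + 2 = j + 1 := by linarith
  have c2 : ((s : ℝ) - n) + (s - j) + 1 = k := by linarith
  rw [c1, c1', c2] at key
  have d1 : ((s : ℝ) + 1 - (j + 1)) = s - j := by ring
  have d2 : ((s : ℝ) - (j - 1)) = s - j + 1 := by ring
  have d3 : ((s : ℝ) + 1 - j) = s - j + 1 := by ring
  rw [d1, d2, d3]
  exact key

/-- the closed form of `k q n j 1 k` -/
private noncomputable def KK (n k j : ℤ) : ℝ :=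
  if (n + k + j) % 2 = 0 then Ke ((n + k + j) / 2) n k j else Ko ((n + k + j) / 2) n k j

private theorem KK_even (n k j σ : ℤ) (h : n + k + j = 2 * σ) : KK n k j = Ke σ n k j := by
  unfold KK
  rw [if_pos (by omega), show (n + k + j) / 2 = σ by omega]

private theorem KK_odd (n k j s : ℤ) (h : n + k + j = 2 * s + 1) : KK n k j = Ko s n k j := by
  unfold KK
  rw [if_neg (by omega), show (n + k + j) / 2 = s by omega]

private theorem KK_rec (n k j : ℤ) (hn : 1 ≤ n) (hk : 1 ≤ k) (hj : 0 ≤ j) :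
    ((j : ℝ) + 1) * KK n k (j + 1) + j * KK n k (j - 1)
      = (2 * (j : ℝ) + 1) * (k / (2 * k - 1) * KK n (k - 1) j
        + KK n k j / ((2 * k - 1) * (2 * k + 1)) + k / (2 * k + 1) * KK n (k + 1) j) := by
  rcases Int.even_or_odd' (n + k + j) with ⟨σ, h | h⟩
  · rw [KK_odd n k (j + 1) σ (by omega), KK_odd n k (j - 1) (σ - 1) (by omega),
      KK_odd n (k - 1) j (σ - 1) (by omega), KK_even n k j σ h, KK_odd n (k + 1) j σ (by omega)]
    exact evn_rec n k j σ h hn hk hj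
  · rw [KK_even n k (j + 1) (σ + 1) (by omega), KK_even n k (j - 1) σ (by omega),
      KK_even n (k - 1) j σ (by omega), KK_odd n k j σ h, KK_even n (k + 1) j (σ + 1) (by omega)]
    exact odd_rec n k j σ h hn hk hj

private theorem KK_k0 (n j : ℤ) : KK n 0 j = 0 := by
  rcases Int.even_or_odd' (n + 0 + j) with ⟨σ, h | h⟩
  · rw [KK_even n 0 j σ h]
    unfold Ke
    rcases lt_trichotomy n j with h1 | h1 | h1
    · rw [Kg_neg (σ - j) (by omega)]
      simp
    · have : (σ : ℝ) - j = 0 := by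
        have : σ = j := by omega
        rw [this]
        ring
      rw [this]
      simp
    · rw [Kg_neg (σ - n) (by omega)]
      simp
  · rw [KK_odd n 0 j σ h]
    unfold Ko
    rcases lt_or_ge (σ - n) 0 with h1 | h1
    · rw [Kg_neg (σ - n) (by omega)]
      simp
    · rw [Kg_neg (σ - j) (by omega)]
      simp

private theorem KK_j0 (n k : ℤ) (hn : 1 ≤ n) (hk : 1 ≤ k) : KK n k 0 = if k = n then (k : ℝ) else 0 := by
  rcases Int.even_or_odd' (n + k + 0) with ⟨σ, h | h⟩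
  · rw [KK_even n k 0 σ h]
    unfold Ke
    by_cases h1 : k = n
    · rw [if_pos h1]
      subst h1
      have h2 : σ = k := by omega
      subst h2
      have h3 : Kg 0 = 1 := by
        unfold Kg g
        simp
      have h4 := Kg_pos σ (by omega)
      rw [sub_self, sub_zero, h3]
      push_cast
      field_simp
      ring
    · rw [if_neg h1]
      rcases lt_or_ge (σ - n) 0 with h2 | h2
      · rw [Kg_neg (σ - n) (by omega)]
        simp
      · rw [Kg_neg (σ - k) (by omega)]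
        simp
  · rw [KK_odd n k 0 σ h, if_neg (by omega)]
    unfold Ko
    rcases lt_or_ge (σ - n) 0 with h2 | h2
    · rw [Kg_neg (σ - n) (by omega)]
      simp
    · rw [Kg_neg (σ - k) (by omega)]
      simp

private theorem F_X (n k j : ℕ) (T : ℝ) :
    F (fun m => X (mu n m) k) j T = X (fun i => F (fun m => mu n m i) j T) k := by
  unfold F X
  by_cases h : k = 0
  · rw [if_pos h]
    refine Finset.sum_eq_zero fun m _ => ?_
    beta_reduce
    rw [if_pos h]
    ring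
  · rw [if_neg h, Finset.mul_sum, Finset.mul_sum, Finset.sum_div, ← Finset.sum_add_distrib,
      ← Finset.sum_add_distrib]
    refine Finset.sum_congr rfl fun m _ => ?_
    beta_reduce
    rw [if_neg h]
    ring

private theorem q_rec (hR : StR) (n k j : ℕ) :
    ((j : ℝ) + 2) * q n (j + 2) 1 k + ((j : ℝ) + 1) * q n j 1 k
      = (2 * (j : ℝ) + 3) * X (q n (j + 1) 1) k := by
  have h := hR (fun m => mu n m k) j 1
  unfold q
  rw [h]
  congr 1
  have h2 : X (fun i => F (fun m => mu n m i) (j + 1) 1) k = F (fun m => X (mu n m) k) (j + 1) 1 :=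
    (F_X n k (j + 1) 1).symm
  have h3 : (fun i => F (fun m => mu n m i) (j + 1) 1) = (q n (j + 1) 1) := rfl
  show _ = X (fun i => F (fun m => mu n m i) (j + 1) 1) k
  rw [h2]
  unfold F
  rw [Finset.mul_sum, ← Finset.sum_sub_distrib]
  refine Finset.sum_congr rfl fun m _ => ?_
  show _ - _ * (_ * _ * ((mu n m k - X (mu n m) k) / 2)) = _
  ring

private theorem q_zero (n k : ℕ) : q n 0 1 k = if k = n then 1 else 0 := by
  unfold q F lc
  rw [Finset.sum_range_one]
  simp [mu]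

private theorem q_one (n k : ℕ) : q n 1 1 k = X (q n 0 1) k := by
  have h : (q n 0 1) = mu n 0 := by
    funext i
    rw [q_zero]
    rfl
  rw [h]
  unfold q F lc
  rw [Finset.sum_range_succ, Finset.sum_range_one]
  show (-1) ^ 0 * (((1 : ℕ).choose 0 : ℕ) : ℝ) * _ * _ * mu n 0 k + (-1) ^ 1 * (((1 : ℕ).choose 1 : ℕ) : ℝ) *
    (((1 + 1 : ℕ).choose 1 : ℕ) : ℝ) * 1 ^ 1 * ((mu n 0 k - X (mu n 0) k) / 2) = _
  simp
  ring

private theorem X_mul (n k j : ℕ) (hk : 1 ≤ k)
    (h : ∀ i : ℕ, (i : ℝ) * q n j 1 i = KK n i j) :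
    (k : ℝ) * X (q n j 1) k = (k : ℝ) / (2 * k - 1) * KK n ((k : ℤ) - 1) j
        + KK n k j / ((2 * (k : ℝ) - 1) * (2 * k + 1)) + k / (2 * k + 1) * KK n ((k : ℤ) + 1) j := by
  unfold X
  rw [if_neg (by omega), ← h k]
  have h1 := h (k - 1)
  have h2 := h (k + 1)
  push_cast [Nat.cast_sub hk] at h1 h2
  rw [← h1, ← h2, show (4 * (k : ℝ) ^ 2 - 1) = (2 * (k : ℝ) - 1) * (2 * k + 1) by ring]
  ring

private theorem q_eq (hR : StR) (n : ℕ) (hn : 1 ≤ n) (j : ℕ) :
    ∀ k : ℕ, (k : ℝ) * q n j 1 k = KK n k j := by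
  have hn' : (1 : ℤ) ≤ (n : ℤ) := by exact_mod_cast hn
  induction j using Nat.strong_induction_on with
  | _ j ih =>
    intro k
    rcases Nat.eq_zero_or_pos k with h0 | h0
    · subst h0
      have := KK_k0 n j
      push_cast
      rw [this]
      ring
    · have hk' : (1 : ℤ) ≤ (k : ℤ) := by exact_mod_cast h0
      match j, ih with
      | 0, _ =>
        rw [q_zero]
        have := KK_j0 n k hn' hk'
        push_cast
        rw [this]
        by_cases h : k = n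
        · rw [if_pos h, if_pos (by exact_mod_cast h)]
          push_cast
          ring
        · rw [if_neg h, if_neg (by exact_mod_cast h)]
          ring
      | 1, ih =>
        rw [q_one, X_mul n k 0 h0 (ih 0 (by omega))]
        have := KK_rec n k 0 hn' hk' (by omega)
        push_cast at this ⊢
        rw [zero_add] at this
        linarith
      | j + 2, ih =>
        have h1 := q_rec hR n k j
        have h2 := X_mul n k (j + 1) h0 (ih (j + 1) (by omega))
        have h3 := ih j (by omega) k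
        have h4 := KK_rec n k (j + 1) hn' hk' (by omega)
        rw [show ((j : ℤ) + 1 + 1) = (j : ℤ) + 2 by ring, show ((j : ℤ) + 1 - 1) = (j : ℤ) by ring] at h4
        push_cast at h2 h4 ⊢
        have h5 : ((j : ℝ) + 2) ≠ 0 := by positivity
        apply mul_left_cancel₀ h5
        have h6 : ((j : ℝ) + 2) * ((k : ℝ) * q n (j + 2) 1 k) + ((j : ℝ) + 1) * ((k : ℝ) * q n j 1 k)
            = (2 * (j : ℝ) + 3) * ((k : ℝ) * X (q n (j + 1) 1) k) := by
          linear_combination (k : ℝ) * h1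
        rw [h2, h3] at h6
        linarith

private theorem KK_symm (n k j : ℤ) : KK n k j = KK k n j := by
  rcases Int.even_or_odd' (n + k + j) with ⟨σ, h | h⟩
  · rw [KK_even n k j σ h, KK_even k n j σ (by omega)]
    unfold Ke
    ring
  · rw [KK_odd n k j σ h, KK_odd k n j σ (by omega)]
    unfold Ko
    ring

private theorem KK0 (b a L : ℕ) (hb : b ≤ a) (h : L < a - b) : KK b a L = 0 := by
  rcases Int.even_or_odd' ((b : ℤ) + a + L) with ⟨σ, h1 | h1⟩
  · rw [KK_even b a L σ h1]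
    unfold Ke
    rw [Kg_neg (σ - a) (by omega)]
    simp
  · rw [KK_odd b a L σ h1]
    unfold Ko
    rw [Kg_neg (σ - a) (by omega)]
    simp

private theorem KK1 (b a l : ℕ) (hb : b ≤ a) (h : l ≤ b) :
    KK b a ((a - b + 2 * l : ℕ) : ℤ) = Ae a b l * (g (a - b + l) * g l) := by
  rw [KK_even b a _ ((a + l : ℕ) : ℤ) (by omega)]
  unfold Ke Ae
  rw [show ((a + l : ℕ) : ℤ) - a = ((l : ℕ) : ℤ) by omega,
    show ((a + l : ℕ) : ℤ) - b = ((a - b + l : ℕ) : ℤ) by omega,
    show ((a + l : ℕ) : ℤ) - ((a - b + 2 * l : ℕ) : ℤ) = ((b - l : ℕ) : ℤ) by omega,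
    Kg_nat, Kg_nat, Kg_nat, Kg_nat]
  push_cast [Nat.cast_sub hb]
  ring

private theorem KK2 (b a l : ℕ) (hb : b ≤ a) (h : l + 1 ≤ b) :
    KK b a ((a - b + 1 + 2 * l : ℕ) : ℤ) = Go a b l * (g (a - b + 1 + l) * g l) := by
  rw [KK_odd b a _ ((a + l : ℕ) : ℤ) (by omega)]
  unfold Ko Go Ao
  rw [show ((a + l : ℕ) : ℤ) - a = ((l : ℕ) : ℤ) by omega,
    show ((a + l : ℕ) : ℤ) - b = ((a - b + l : ℕ) : ℤ) by omega,
    show ((a + l : ℕ) : ℤ) - ((a - b + 1 + 2 * l : ℕ) : ℤ) = ((b - 1 - l : ℕ) : ℤ) by omega,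
    Kg_nat, Kg_nat, Kg_nat, Kg_nat]
  have h1 := g_rec (a + l)
  have h2 := g_rec (a - b + l)
  rw [show a + l + 1 = a + 1 + l by ring] at h1
  rw [show a - b + l + 1 = a - b + 1 + l by ring] at h2
  push_cast [Nat.cast_sub hb] at h1 h2 ⊢
  have e : ((2 * (l : ℝ) + 1) * (2 * l + 2 * ((a : ℝ) - b) + 2)) /
      (4 * (((a : ℝ) + 1 + l) * g (a + 1 + l) / g (b - 1 - l))) * (g (a - b + 1 + l) * g l)
      = (2 * (l : ℝ) + 1) * (2 * ((a : ℝ) - b + l + 1) * g (a - b + 1 + l)) * g l * g (b - 1 - l) /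
        (2 * (2 * ((a : ℝ) + l + 1) * g (a + 1 + l))) := by
    rw [show (4 * (((a : ℝ) + 1 + l) * g (a + 1 + l) / g (b - 1 - l)))
      = (2 * (2 * ((a : ℝ) + l + 1) * g (a + 1 + l))) / g (b - 1 - l) by ring, div_div_eq_mul_div]
    ring
  rw [e, h1, h2, show (2 * ((a : ℝ) + l - b) + 1) = (2 * ((a : ℝ) - b + l) + 1) by ring,
    show (2 * ((a : ℝ) + l - a) + 1) = (2 * (l : ℝ) + 1) by ring]
  generalize (2 * ((a : ℝ) + l) + 1) = w
  generalize (2 * ((a : ℝ) - b + l) + 1) = w'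
  ring

/-- QPOS module K0. -/
theorem pK0 (hR : StR) : StK0 := by
  intro n k L hn hk h
  have h1 := q_eq hR n hn L k
  have hk' : (k : ℝ) ≠ 0 := by
    have : (0 : ℝ) < k := by exact_mod_cast hk
    exact this.ne'
  apply mul_left_cancel₀ hk'
  rw [h1, mul_zero]
  rcases le_total n k with h2 | h2
  · rw [max_eq_right h2, min_eq_left h2] at h
    exact KK0 n k L h2 h
  · rw [max_eq_left h2, min_eq_right h2] at h
    rw [KK_symm]
    exact KK0 k n L h2 h

/-- QPOS module K1. -/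
theorem pK1 (hR : StR) : StK1 := by
  intro n k l hn _ h
  rw [q_eq hR n hn]
  rcases le_total n k with h2 | h2
  · rw [max_eq_right h2, min_eq_left h2]
    rw [min_eq_left h2] at h
    exact KK1 n k l h2 h
  · rw [max_eq_left h2, min_eq_right h2]
    rw [min_eq_right h2] at h
    rw [KK_symm]
    exact KK1 k n l h2 h

/-- QPOS module K2. -/
theorem pK2 (hR : StR) : StK2 := by
  intro n k l hn _ h
  rw [q_eq hR n hn]
  rcases le_total n k with h2 | h2
  · rw [max_eq_right h2, min_eq_left h2]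
    rw [min_eq_left h2] at h
    exact KK2 n k l h2 h
  · rw [max_eq_left h2, min_eq_right h2]
    rw [min_eq_right h2] at h
    rw [KK_symm]
    exact KK2 k n l h2 h

end Pool.Agent.Helper35.QP
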