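import Pool.Agent.Helper35.QP.St

namespace Pool.Agent.Helper35.QP

open Finset

theorem lc_zero_of_lt {j m : ℕ} (h : j < m) : lc j m = 0 := by
  unfold lc
  rw [Nat.choose_eq_zero_of_lt h]
  simp

theorem lc_zero_right (j : ℕ) : lc j 0 = 1 := by simp [lc]

theorem F_eq (M : ℕ → ℝ) (j N : ℕ) (T : ℝ) (h : j + 1 ≤ N) :
    F M j T = ∑ m ∈ range N, lc j m * T ^ m * M m := by
  unfold F
  refine Finset.sum_subset (Finset.range_mono h) ?_
  intro x _ hx
  rw [lc_zero_of_lt (by simpa using hx)]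
  ring

theorem lc_rec (j m : ℕ) :
    ((j : ℝ) + 2) * lc (j + 2) (m + 1) + ((j : ℝ) + 1) * lc j (m + 1)
      = (2 * (j : ℝ) + 3) * (lc (j + 1) (m + 1) - 2 * lc (j + 1) m) := by
  have h1 : ((m : ℝ) + 1) * ((j + 1).choose (m + 1) : ℝ) = ((j : ℝ) + 1 - m) * ((j + 1).choose m : ℝ) := by
    rcases Nat.lt_or_ge (j + 1) m with hm | hm
    · rw [Nat.choose_eq_zero_of_lt hm, Nat.choose_eq_zero_of_lt (by omega)]; simp
    · have := Nat.choose_succ_right_eq (j + 1) m
      have h2 : (((j + 1).choose (m + 1) * (m + 1) : ℕ) : ℝ) = (((j + 1).choose m * (j + 1 - m) : ℕ) : ℝ) := by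
        rw [this]
      push_cast [Nat.cast_sub hm] at h2
      linarith
  have h2 : ((j + 2).choose (m + 1) : ℝ) = ((j + 1).choose m : ℝ) + ((j + 1).choose (m + 1) : ℝ) := by
    rw [show j + 2 = (j + 1) + 1 from rfl, Nat.choose_succ_succ]; push_cast; ring
  have h3 : ((j : ℝ) + 1) * (j.choose (m + 1) : ℝ) = ((j : ℝ) - m) * ((j + 1).choose (m + 1) : ℝ) := by
    rcases Nat.lt_or_ge j m with hm | hm
    · rw [Nat.choose_eq_zero_of_lt (show j < m + 1 by omega),
        Nat.choose_eq_zero_of_lt (show j + 1 < m + 1 by omega)]; simp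
    · have := Nat.choose_mul_succ_eq j (m + 1)
      have h2 : ((j.choose (m + 1) * (j + 1) : ℕ) : ℝ)
          = (((j + 1).choose (m + 1) * (j + 1 - (m + 1)) : ℕ) : ℝ) := by rw [this]
      rw [show j + 1 - (m + 1) = j - m by omega] at h2
      push_cast [Nat.cast_sub hm] at h2
      linarith
  have k1 : ((m : ℝ) + 1) * ((j + m + 2).choose (m + 1) : ℝ)
      = ((j : ℝ) + m + 2) * ((j + 1 + m).choose m : ℝ) := by
    have := Nat.add_one_mul_choose_eq (j + 1 + m) m
    have h2 : (((j + 1 + m + 1) * (j + 1 + m).choose m : ℕ) : ℝ)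
        = (((j + 1 + m + 1).choose (m + 1) * (m + 1) : ℕ) : ℝ) := by rw [this]
    rw [show j + 1 + m + 1 = j + m + 2 by omega] at h2
    push_cast at h2
    linarith
  have k2 : ((j : ℝ) + 2) * ((j + m + 3).choose (m + 1) : ℝ)
      = ((j : ℝ) + m + 3) * ((j + m + 2).choose (m + 1) : ℝ) := by
    have := Nat.choose_mul_succ_eq (j + m + 2) (m + 1)
    have h2 : (((j + m + 2).choose (m + 1) * (j + m + 2 + 1) : ℕ) : ℝ)
        = (((j + m + 2 + 1).choose (m + 1) * (j + m + 2 + 1 - (m + 1)) : ℕ) : ℝ) := by rw [this]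
    rw [show j + m + 2 + 1 - (m + 1) = j + 2 by omega, show j + m + 2 + 1 = j + m + 3 by omega] at h2
    push_cast at h2
    linarith
  have k3 : ((j : ℝ) + m + 2) * ((j + m + 1).choose (m + 1) : ℝ)
      = ((j : ℝ) + 1) * ((j + m + 2).choose (m + 1) : ℝ) := by
    have := Nat.choose_mul_succ_eq (j + m + 1) (m + 1)
    have h2 : (((j + m + 1).choose (m + 1) * (j + m + 1 + 1) : ℕ) : ℝ)
        = (((j + m + 1 + 1).choose (m + 1) * (j + m + 1 + 1 - (m + 1)) : ℕ) : ℝ) := by rw [this]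
    rw [show j + m + 1 + 1 - (m + 1) = j + 1 by omega, show j + m + 1 + 1 = j + m + 2 by omega] at h2
    push_cast at h2
    linarith
  unfold lc
  rw [show j + 2 + (m + 1) = j + m + 3 by ring, show j + (m + 1) = j + m + 1 by ring,
    show j + 1 + (m + 1) = j + m + 2 by ring]
  have hm1 : ((m : ℝ) + 1) ≠ 0 := by positivity
  have hj1 : ((j : ℝ) + 1) ≠ 0 := by positivity
  have hj2 : ((j : ℝ) + 2) ≠ 0 := by positivity
  have hjm : ((j : ℝ) + m + 2) ≠ 0 := by positivity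
  set x := ((j + 1).choose m : ℝ)
  set u := ((j + 1 + m).choose m : ℝ)
  have e1 : ((j + 1).choose (m + 1) : ℝ) = ((j : ℝ) + 1 - m) * x / (m + 1) := by
    field_simp; linarith
  have e2 : ((j + 2).choose (m + 1) : ℝ) = ((j : ℝ) + 2) * x / (m + 1) := by
    rw [h2, e1]; field_simp; ring
  have e3 : (j.choose (m + 1) : ℝ) = ((j : ℝ) - m) * ((j : ℝ) + 1 - m) * x / ((j + 1) * (m + 1)) := by
    rw [e1] at h3; field_simp; field_simp at h3; linarith
  have f1 : ((j + m + 2).choose (m + 1) : ℝ) = ((j : ℝ) + m + 2) * u / (m + 1) := by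
    field_simp; linarith
  have f2 : ((j + m + 3).choose (m + 1) : ℝ)
      = ((j : ℝ) + m + 3) * ((j : ℝ) + m + 2) * u / ((j + 2) * (m + 1)) := by
    rw [f1] at k2; field_simp; field_simp at k2; linarith
  have f3 : ((j + m + 1).choose (m + 1) : ℝ) = ((j : ℝ) + 1) * u / (m + 1) := by
    rw [f1] at k3
    have : ((j : ℝ) + m + 2) * (((j + m + 1).choose (m + 1) : ℝ) - ((j : ℝ) + 1) * u / (m + 1)) = 0 := by
      rw [mul_sub, k3]; field_simp; ring
    rcases mul_eq_zero.1 this with h | h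
    · exact absurd h hjm
    · linarith
  rw [e1, e2, e3, f1, f2, f3]
  field_simp
  ring

/-- Module R. -/
theorem pR : StR := by
  intro M j T
  rw [F_eq M (j + 2) (j + 3) T le_rfl, F_eq M j (j + 3) T (by omega), F_eq M (j + 1) (j + 3) T (by omega),
    F_eq (fun m => M (m + 1)) (j + 1) (j + 2) T le_rfl]
  rw [show j + 3 = (j + 2) + 1 from rfl, Finset.sum_range_succ' _ (j + 2), Finset.sum_range_succ' _ (j + 2),
    Finset.sum_range_succ' _ (j + 2)]
  simp only [lc_zero_right, pow_zero, one_mul]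
  have key : ((j : ℝ) + 2) * ∑ m ∈ range (j + 2), lc (j + 2) (m + 1) * T ^ (m + 1) * M (m + 1)
      + ((j : ℝ) + 1) * ∑ m ∈ range (j + 2), lc j (m + 1) * T ^ (m + 1) * M (m + 1)
      = (2 * (j : ℝ) + 3) * (∑ m ∈ range (j + 2), lc (j + 1) (m + 1) * T ^ (m + 1) * M (m + 1)
        - 2 * T * ∑ m ∈ range (j + 2), lc (j + 1) m * T ^ m * M (m + 1)) := by
    simp only [Finset.mul_sum, ← Finset.sum_add_distrib, ← Finset.sum_sub_distrib]
    refine Finset.sum_congr rfl (fun m _ => ?_)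
    have := lc_rec j m
    have h2 : ∀ a b c d : ℝ, ((j : ℝ) + 2) * a + ((j : ℝ) + 1) * b = (2 * (j : ℝ) + 3) * (c - 2 * d) →
      ((j : ℝ) + 2) * (a * T ^ (m + 1) * M (m + 1)) + ((j : ℝ) + 1) * (b * T ^ (m + 1) * M (m + 1))
        = (2 * (j : ℝ) + 3) * (c * T ^ (m + 1) * M (m + 1) - 2 * T * (d * T ^ m * M (m + 1))) := by
      intro a b c d h
      have : ((j : ℝ) + 2) * (a * T ^ (m + 1) * M (m + 1)) + ((j : ℝ) + 1) * (b * T ^ (m + 1) * M (m + 1))
        = (((j : ℝ) + 2) * a + ((j : ℝ) + 1) * b) * (T ^ (m + 1) * M (m + 1)) := by ring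
      rw [this, h]; ring
    exact h2 _ _ _ _ this
  linear_combination key

end Pool.Agent.Helper35.QP
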