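import Pool.Agent.Helper35.QP.St

/-!
# (QPOS), module S: addition theorem, `D p j t ≥ 0` on `[0,1]`
-/

set_option autoImplicit false

namespace Pool.Agent.Helper35.QP

open Finset

namespace MS

/-- Legendre values -/
noncomputable def P (y : ℝ) : ℕ → ℝ
  | 0 => 1
  | 1 => y
  | j + 2 => ((2 * (j : ℝ) + 3) * y * P y (j + 1) - ((j : ℝ) + 1) * P y j) / ((j : ℝ) + 2)

/-- values of the `p`-th derivatives -/
noncomputable def Q (y : ℝ) : ℕ → ℕ → ℝ
  | 0, j => P y j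
  | _ + 1, 0 => 0
  | p + 1, j + 1 => y * Q y (p + 1) j + ((j : ℝ) + 1 + p) * Q y p j
termination_by p j => p + j

theorem Q0 (y : ℝ) (j : ℕ) : Q y 0 j = P y j := by rw [Q]
theorem QS0 (y : ℝ) (p : ℕ) : Q y (p + 1) 0 = 0 := by rw [Q]
theorem QSS (y : ℝ) (p j : ℕ) :
    Q y (p + 1) (j + 1) = y * Q y (p + 1) j + ((j : ℝ) + 1 + p) * Q y p j := by rw [Q]

theorem Qzero (y : ℝ) : ∀ p j : ℕ, j < p → Q y p j = 0 := by
  intro p
  induction p with
  | zero => intro j h; omega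
  | succ p ih =>
    intro j
    induction j with
    | zero => intro _; exact QS0 y p
    | succ j ihj =>
      intro h
      rw [QSS, ihj (by omega), ih j (by omega)]
      ring

theorem R (y : ℝ) : ∀ p : ℕ,
    ((1 + (p : ℝ)) * (y * Q y p 0) = (1 - (p : ℝ)) * Q y p 1) ∧
    (∀ j : ℕ, (2 * (j : ℝ) + 3) * (y * Q y p (j + 1)) =
      ((j : ℝ) + 2 - p) * Q y p (j + 2) + ((j : ℝ) + 1 + p) * Q y p j) ∧
    (∀ j : ℕ, y * Q y (p + 1) (j + 1) - Q y (p + 1) j = ((j : ℝ) + 1 - p) * Q y p (j + 1)) := by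
  have key : ∀ p : ℕ, ((1 + (p : ℝ)) * (y * Q y p 0) = (1 - (p : ℝ)) * Q y p 1) →
      (∀ j : ℕ, (2 * (j : ℝ) + 3) * (y * Q y p (j + 1)) =
        ((j : ℝ) + 2 - p) * Q y p (j + 2) + ((j : ℝ) + 1 + p) * Q y p j) →
      (∀ j : ℕ, y * Q y (p + 1) (j + 1) - Q y (p + 1) j = ((j : ℝ) + 1 - p) * Q y p (j + 1)) := by
    intro p h0 h1 j
    induction j with
    | zero =>
      rw [QSS, QS0]
      push_cast
      linear_combination h0
    | succ j ih =>
      have e1 := QSS y p (j + 1)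
      have e2 := QSS y p j
      have e3 := h1 j
      push_cast at e1 ⊢
      rw [show j + 1 + 1 = j + 2 from rfl] at *
      linear_combination y * e1 + y * ih + e3 - e2
  intro p
  induction p with
  | zero =>
    have a0 : ((1 + ((0 : ℕ) : ℝ)) * (y * Q y 0 0) = (1 - ((0 : ℕ) : ℝ)) * Q y 0 1) := by
      rw [Q0, Q0, P, P]
      push_cast
      ring
    have a1 : (∀ j : ℕ, (2 * (j : ℝ) + 3) * (y * Q y 0 (j + 1)) =
        ((j : ℝ) + 2 - ((0 : ℕ) : ℝ)) * Q y 0 (j + 2) + ((j : ℝ) + 1 + ((0 : ℕ) : ℝ)) * Q y 0 j) := by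
      intro j
      have hj : (j : ℝ) + 2 ≠ 0 := by positivity
      rw [Q0, Q0, Q0, P]
      push_cast
      field_simp
      ring
    exact ⟨a0, a1, key 0 a0 a1⟩
  | succ p ih =>
    obtain ⟨i0, i1, i2⟩ := ih
    have a0 : ((1 + ((p + 1 : ℕ) : ℝ)) * (y * Q y (p + 1) 0) = (1 - ((p + 1 : ℕ) : ℝ)) * Q y (p + 1) 1) := by
      rw [QSS, QS0]
      rcases Nat.eq_zero_or_pos p with rfl | hp
      · push_cast
        ring
      · rw [Qzero y p 0 hp]
        ring
    have a1 : (∀ j : ℕ, (2 * (j : ℝ) + 3) * (y * Q y (p + 1) (j + 1)) =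
        ((j : ℝ) + 2 - ((p + 1 : ℕ) : ℝ)) * Q y (p + 1) (j + 2) +
          ((j : ℝ) + 1 + ((p + 1 : ℕ) : ℝ)) * Q y (p + 1) j) := by
      intro j
      have e1 := QSS y p (j + 1)
      have e2 := i2 j
      push_cast at e1 ⊢
      rw [show j + 1 + 1 = j + 2 from rfl] at e1
      linear_combination ((j : ℝ) + 2 + p) * e2 - ((j : ℝ) + 1 - p) * e1
    exact ⟨a0, a1, key (p + 1) a0 a1⟩

/-- difference relation -/
theorem R2 (y : ℝ) (p j : ℕ) :
    (2 * (j : ℝ) + 3) * Q y p (j + 1) = Q y (p + 1) (j + 2) - Q y (p + 1) j := by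
  have e1 := QSS y p (j + 1)
  have e2 := (R y p).2.2 j
  push_cast at e1
  rw [show j + 1 + 1 = j + 2 from rfl] at e1
  linear_combination -e1 - e2

theorem R3 (y : ℝ) (p j : ℕ) :
    (2 * (j : ℝ) + 3) * ((1 - y ^ 2) * Q y (p + 1) (j + 1)) =
      ((j : ℝ) + 1 + p) * ((j : ℝ) + 2 + p) * Q y p j
        - ((j : ℝ) + 1 - p) * ((j : ℝ) + 2 - p) * Q y p (j + 2) := by
  have e1 := QSS y p j
  have e2 := (R y p).2.2 j
  have e3 := (R y p).2.1 j
  linear_combination (2 * (j : ℝ) + 3) * e1 - (2 * (j : ℝ) + 3) * y * e2 - ((j : ℝ) + 1 - p) * e3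

/-- the square -/
noncomputable def S (y : ℝ) (p j : ℕ) : ℝ :=
  (((j - p).factorial : ℝ) / ((j + p).factorial : ℝ)) * (1 - y ^ 2) ^ p * (Q y p j) ^ 2

theorem S_nonneg {y : ℝ} (hy : y ^ 2 ≤ 1) (p j : ℕ) : 0 ≤ S y p j := by
  unfold S
  have : 0 ≤ 1 - y ^ 2 := by linarith
  positivity

theorem S_zero {y : ℝ} {p j : ℕ} (h : j < p) : S y p j = 0 := by
  unfold S
  rw [Qzero y p j h]
  ring

theorem S_rec0 (y : ℝ) (j : ℕ) :
    ((j : ℝ) + 2) * S y 0 (j + 2) + ((j : ℝ) + 1) * S y 0 j =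
      (2 * (j : ℝ) + 3) * (y ^ 2 * S y 0 (j + 1) + (1 - y ^ 2) * S y 1 (j + 1)) := by
  have f1 : ∀ m : ℕ, S y 0 m = (Q y 0 m) ^ 2 := by
    intro m
    unfold S
    have : (m.factorial : ℝ) ≠ 0 := by positivity
    simp [this]
  have f2 : S y 1 (j + 1) = (1 - y ^ 2) * (Q y 1 (j + 1)) ^ 2 / (((j : ℝ) + 2) * ((j : ℝ) + 1)) := by
    unfold S
    have h0 : (j.factorial : ℝ) ≠ 0 := by positivity
    have h1 : ((j + 1 + 1).factorial : ℝ) = ((j : ℝ) + 2) * (((j : ℝ) + 1) * j.factorial) := by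
      rw [Nat.factorial_succ, Nat.factorial_succ]
      push_cast
      ring
    rw [h1, Nat.add_sub_cancel, pow_one]
    field_simp
  rw [f1, f1, f1, f2]
  have e1 := (R y 0).2.1 j
  have e3 := R3 y 0 j
  push_cast at e1 e3
  have hj : 2 * (j : ℝ) + 3 ≠ 0 := by positivity
  have hj1 : (j : ℝ) + 1 ≠ 0 := by positivity
  have hj2 : (j : ℝ) + 2 ≠ 0 := by positivity
  have g1 : y * Q y 0 (j + 1) = (((j : ℝ) + 2) * Q y 0 (j + 2) + ((j : ℝ) + 1) * Q y 0 j) / (2 * (j : ℝ) + 3) := by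
    rw [eq_div_iff hj]
    linear_combination e1
  have g2 : (1 - y ^ 2) * Q y 1 (j + 1) =
      (((j : ℝ) + 1) * ((j : ℝ) + 2) * (Q y 0 j - Q y 0 (j + 2))) / (2 * (j : ℝ) + 3) := by
    rw [eq_div_iff hj]
    linear_combination e3
  have g3 : (2 * (j : ℝ) + 3) * (y ^ 2 * Q y 0 (j + 1) ^ 2 +
      (1 - y ^ 2) * ((1 - y ^ 2) * Q y 1 (j + 1) ^ 2 / (((j : ℝ) + 2) * ((j : ℝ) + 1)))) =
      (2 * (j : ℝ) + 3) * ((y * Q y 0 (j + 1)) ^ 2 +
        ((1 - y ^ 2) * Q y 1 (j + 1)) ^ 2 / (((j : ℝ) + 2) * ((j : ℝ) + 1))) := by ring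
  rw [g3, g1, g2]
  field_simp
  ring

theorem S_recS (y : ℝ) (p j : ℕ) :
    ((j : ℝ) + 2) * S y (p + 1) (j + 2) + ((j : ℝ) + 1) * S y (p + 1) j =
      (2 * (j : ℝ) + 3) * (y ^ 2 * S y (p + 1) (j + 1) +
        (1 - y ^ 2) / 2 * (S y p (j + 1) + S y (p + 2) (j + 1))) := by
  rcases lt_or_ge (j + 2) (p + 1) with h | h
  · rw [S_zero h, S_zero (show j < p + 1 by omega), S_zero (show j + 1 < p + 1 by omega),
      S_zero (show j + 1 < p by omega), S_zero (show j + 1 < p + 2 by omega)]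
    ring
  rcases eq_or_lt_of_le h with h | h
  · -- j + 1 = p
    obtain rfl : p = j + 1 := by omega
    rw [S_zero (show j < j + 1 + 1 by omega), S_zero (show j + 1 < j + 1 + 1 by omega),
      S_zero (show j + 1 < j + 1 + 2 by omega)]
    have e1 := QSS y (j + 1) (j + 1)
    rw [Qzero y (j + 1 + 1) (j + 1) (by omega)] at e1
    push_cast at e1
    unfold S
    rw [show j + 2 = j + 1 + 1 from rfl, e1]
    have f1 : (((j + 1 + 1) + (j + 1 + 1)).factorial : ℝ) =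
        (2 * (j : ℝ) + 4) * ((2 * (j : ℝ) + 3) * ((j + 1 + (j + 1)).factorial : ℝ)) := by
      rw [show (j + 1 + 1) + (j + 1 + 1) = (j + 1 + (j + 1)) + 1 + 1 by ring, Nat.factorial_succ,
        Nat.factorial_succ]
      push_cast
      ring
    have h0 : ((j + 1 + (j + 1)).factorial : ℝ) ≠ 0 := by positivity
    have h4 : 2 * (j : ℝ) + 4 ≠ 0 := by positivity
    have h3 : 2 * (j : ℝ) + 3 ≠ 0 := by positivity
    rw [f1, Nat.sub_self, Nat.sub_self, Nat.factorial_zero]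
    push_cast
    field_simp
    ring
  rcases eq_or_lt_of_le (show p ≤ j by omega) with rfl | h'
  · -- j = p
    rw [S_zero (show p < p + 1 by omega), S_zero (show p + 1 < p + 2 by omega)]
    have e1 := (R y (p + 1)).2.1 p
    have e2 := R2 y p p
    rw [Qzero y (p + 1) p (by omega)] at e1 e2
    push_cast at e1 e2
    have h3 : 2 * (p : ℝ) + 3 ≠ 0 := by positivity
    have g1 : y * Q y (p + 1) (p + 1) = Q y (p + 1) (p + 2) / (2 * (p : ℝ) + 3) := by
      rw [eq_div_iff h3]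
      linear_combination e1
    have g2 : Q y p (p + 1) = Q y (p + 1) (p + 2) / (2 * (p : ℝ) + 3) := by
      rw [eq_div_iff h3]
      linear_combination e2
    unfold S
    have f0 : ((p + 2 + (p + 1)).factorial : ℝ) =
        (2 * (p : ℝ) + 3) * ((2 * (p : ℝ) + 2) * ((p + 1 + p).factorial : ℝ)) := by
      rw [show p + 2 + (p + 1) = (p + 1 + p) + 1 + 1 by ring, Nat.factorial_succ,
        Nat.factorial_succ]
      push_cast
      ring
    have f1 : ((p + 1 + (p + 1)).factorial : ℝ) = (2 * (p : ℝ) + 2) * ((p + 1 + p).factorial : ℝ) := by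
      rw [show p + 1 + (p + 1) = (p + 1 + p) + 1 by ring, Nat.factorial_succ]
      push_cast
      ring
    have h0 : ((p + 1 + p).factorial : ℝ) ≠ 0 := by positivity
    have h2 : 2 * (p : ℝ) + 2 ≠ 0 := by positivity
    have f2 : p + 2 - (p + 1) = 1 := by omega
    have f3 : p + 1 - p = 1 := by omega
    rw [f0, f1, f2, f3, Nat.sub_self, Nat.factorial_zero, Nat.factorial_one, g2]
    have g3 : y ^ 2 * ((1 : ℕ) / ((2 * (p : ℝ) + 2) * ((p + 1 + p).factorial : ℝ)) *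
        (1 - y ^ 2) ^ (p + 1) * Q y (p + 1) (p + 1) ^ 2) =
        (1 : ℕ) / ((2 * (p : ℝ) + 2) * ((p + 1 + p).factorial : ℝ)) *
        (1 - y ^ 2) ^ (p + 1) * (y * Q y (p + 1) (p + 1)) ^ 2 := by ring
    rw [g3, g1]
    push_cast
    field_simp
    ring
  · -- the generic case
    obtain ⟨i, rfl⟩ : ∃ i, j = p + 1 + i := ⟨j - (p + 1), by omega⟩
    have e1 := (R y (p + 1)).2.1 (p + 1 + i)
    have e2 := R2 y p (p + 1 + i)
    have e3 := R3 y (p + 1) (p + 1 + i)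
    set X := Q y (p + 1) (p + 1 + i + 2) with hX
    set Y := Q y (p + 1) (p + 1 + i) with hY
    push_cast at e1 e2 e3
    have hJ : 2 * (p : ℝ) + 2 * i + 5 ≠ 0 := by positivity
    have g1 : y * Q y (p + 1) (p + 1 + i + 1) =
        (((i : ℝ) + 2) * X + (2 * (p : ℝ) + i + 3) * Y) / (2 * (p : ℝ) + 2 * i + 5) := by
      rw [eq_div_iff hJ]
      linear_combination e1
    have g2 : Q y p (p + 1 + i + 1) = (X - Y) / (2 * (p : ℝ) + 2 * i + 5) := by
      rw [eq_div_iff hJ]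
      linear_combination e2
    have g3 : (1 - y ^ 2) * Q y (p + 2) (p + 1 + i + 1) =
        ((2 * (p : ℝ) + i + 3) * (2 * (p : ℝ) + i + 4) * Y - ((i : ℝ) + 1) * ((i : ℝ) + 2) * X) /
          (2 * (p : ℝ) + 2 * i + 5) := by
      rw [eq_div_iff hJ]
      linear_combination e3
    unfold S
    rw [← hX, ← hY]
    have a1 : p + 1 + i + 2 - (p + 1) = i + 1 + 1 := by omega
    have a2 : p + 1 + i - (p + 1) = i := by omega
    have a3 : p + 1 + i + 1 - (p + 1) = i + 1 := by omega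
    have a4 : p + 1 + i + 1 - p = i + 1 + 1 := by omega
    have a5 : p + 1 + i + 1 - (p + 2) = i := by omega
    have b1 : p + 1 + i + 2 + (p + 1) = (p + 1 + i + (p + 1)) + 1 + 1 := by ring
    have b3 : p + 1 + i + 1 + (p + 1) = (p + 1 + i + (p + 1)) + 1 := by ring
    have b4 : p + 1 + i + 1 + p = p + 1 + i + (p + 1) := by ring
    have b5 : p + 1 + i + 1 + (p + 2) = (p + 1 + i + (p + 1)) + 1 + 1 := by ring
    rw [a1, a2, a3, a4, a5, b1, b3, b4, b5]
    simp only [Nat.factorial_succ i, Nat.factorial_succ (i + 1),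
      Nat.factorial_succ (p + 1 + i + (p + 1)), Nat.factorial_succ (p + 1 + i + (p + 1) + 1)]
    have h0 : (i.factorial : ℝ) ≠ 0 := by positivity
    have h1 : ((p + 1 + i + (p + 1)).factorial : ℝ) ≠ 0 := by positivity
    push_cast
    generalize (i.factorial : ℝ) = f at *
    generalize ((p + 1 + i + (p + 1)).factorial : ℝ) = G at *
    have k1 : ((p : ℝ) + 1 + i + (p + 1) + 1 + 1) ≠ 0 := by positivity
    have k2 : ((p : ℝ) + 1 + i + (p + 1) + 1) ≠ 0 := by positivity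
    have g4 : (2 * ((p : ℝ) + 1 + i) + 3) *
        (y ^ 2 * (((i : ℝ) + 1) * f / (((p : ℝ) + 1 + i + (p + 1) + 1) * G) * (1 - y ^ 2) ^ (p + 1) *
          Q y (p + 1) (p + 1 + i + 1) ^ 2) +
        (1 - y ^ 2) / 2 * (((i : ℝ) + 1 + 1) * (((i : ℝ) + 1) * f) / G * (1 - y ^ 2) ^ p *
          Q y p (p + 1 + i + 1) ^ 2 +
          f / (((p : ℝ) + 1 + i + (p + 1) + 1 + 1) * (((p : ℝ) + 1 + i + (p + 1) + 1) * G)) *
          (1 - y ^ 2) ^ (p + 2) * Q y (p + 2) (p + 1 + i + 1) ^ 2)) =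
        (2 * ((p : ℝ) + 1 + i) + 3) * (1 - y ^ 2) ^ (p + 1) *
        ((((i : ℝ) + 1) * f / (((p : ℝ) + 1 + i + (p + 1) + 1) * G)) *
          (y * Q y (p + 1) (p + 1 + i + 1)) ^ 2 +
        1 / 2 * (((i : ℝ) + 1 + 1) * (((i : ℝ) + 1) * f) / G * Q y p (p + 1 + i + 1) ^ 2 +
          f / (((p : ℝ) + 1 + i + (p + 1) + 1 + 1) * (((p : ℝ) + 1 + i + (p + 1) + 1) * G)) *
          ((1 - y ^ 2) * Q y (p + 2) (p + 1 + i + 1)) ^ 2)) := by
      rw [pow_succ (1 - y ^ 2) (p + 1), pow_succ (1 - y ^ 2) p]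
      ring
    rw [g4, g1, g2, g3]
    field_simp
    ring

theorem F_congr {M M' : ℕ → ℝ} (h : ∀ m, M m = M' m) (j : ℕ) (T : ℝ) : F M j T = F M' j T := by
  unfold F
  exact sum_congr rfl fun m _ => by rw [h m]

theorem F_lin (a b : ℝ) (M M' : ℕ → ℝ) (j : ℕ) (T : ℝ) :
    F (fun m => a * M m + b * M' m) j T = a * F M j T + b * F M' j T := by
  unfold F
  rw [mul_sum, mul_sum, ← sum_add_distrib]
  exact sum_congr rfl fun m _ => by ring

theorem nu0 (m : ℕ) : nu 0 (m + 1) = 1 / 2 * nu 0 m + (-1 / 2) * nu 1 m := by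
  unfold nu
  have h1 : (2 * (m + 1)).choose (m + 1 + 0) = 2 * (2 * m).choose m + 2 * (2 * m).choose (m + 1) := by
    rw [show 2 * (m + 1) = 2 * m + 1 + 1 by ring, add_zero, Nat.choose_succ_succ,
      Nat.choose_succ_succ (2 * m) m]
    have h2 : (2 * m + 1).choose m = (2 * m + 1).choose (m + 1) := by
      rw [← Nat.choose_symm_half]
    rw [h2, Nat.choose_succ_succ]
    ring
  rw [h1, add_zero]
  push_cast
  rw [pow_succ]
  ring

theorem nuS (p m : ℕ) : nu (p + 1) (m + 1) =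
    1 * (1 / 2 * nu (p + 1) m + (-1 / 4) * nu p m) + (-1 / 4) * nu (p + 2) m := by
  unfold nu
  have h1 : (2 * (m + 1)).choose (m + 1 + (p + 1)) =
      (2 * m).choose (m + p) + 2 * (2 * m).choose (m + (p + 1)) + (2 * m).choose (m + (p + 2)) := by
    rw [show 2 * (m + 1) = 2 * m + 1 + 1 by ring, show m + 1 + (p + 1) = m + p + 1 + 1 by ring,
      Nat.choose_succ_succ, Nat.choose_succ_succ, Nat.choose_succ_succ (2 * m) (m + p + 1)]
    rw [show m + (p + 1) = m + p + 1 by ring, show m + (p + 2) = m + p + 1 + 1 by ring]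
    ring
  rw [h1]
  push_cast
  rw [pow_succ (4 : ℝ) m, pow_succ (-1 : ℝ) p, pow_succ (-1 : ℝ) (p + 1), pow_succ (-1 : ℝ) p]
  ring

theorem D_rec0 (hR : StR) (j : ℕ) (t : ℝ) :
    ((j : ℝ) + 2) * D 0 (j + 2) t + ((j : ℝ) + 1) * D 0 j t =
      (2 * (j : ℝ) + 3) * ((1 - t) * D 0 (j + 1) t + t * D 1 (j + 1) t) := by
  unfold D
  rw [hR (nu 0) j t, F_congr nu0, F_lin]
  ring

theorem D_recS (hR : StR) (p j : ℕ) (t : ℝ) :
    ((j : ℝ) + 2) * D (p + 1) (j + 2) t + ((j : ℝ) + 1) * D (p + 1) j t =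
      (2 * (j : ℝ) + 3) * ((1 - t) * D (p + 1) (j + 1) t +
        t / 2 * (D p (j + 1) t + D (p + 2) (j + 1) t)) := by
  unfold D
  rw [hR (nu (p + 1)) j t, F_congr (nuS p), F_lin 1 (-1 / 4) (fun m => 1 / 2 * nu (p + 1) m + (-1 / 4) * nu p m),
    F_lin]
  ring

theorem D_zero (y : ℝ) (p : ℕ) : D p 0 (1 - y ^ 2) = S y p 0 := by
  rcases Nat.eq_zero_or_pos p with rfl | hp
  · unfold S
    rw [Q0, P]
    simp [D, F, nu, lc]
  · rw [S_zero hp]
    have : (0 : ℕ).choose (0 + p) = 0 := Nat.choose_eq_zero_of_lt (by omega)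
    simp only [D, F, nu, lc, zero_add, sum_range_one, mul_zero]
    rw [show (0 : ℕ).choose p = 0 from Nat.choose_eq_zero_of_lt hp]
    simp

theorem D_one (y : ℝ) (p : ℕ) : D p 1 (1 - y ^ 2) = S y p 1 := by
  rcases Nat.eq_zero_or_pos p with rfl | hp
  · unfold S
    rw [Q0, P]
    simp [D, F, nu, lc, sum_range_succ]
    ring
  rcases eq_or_lt_of_le (show 1 ≤ p from hp) with rfl | hp'
  · have h1 : Q y 1 1 = 1 := by
      rw [show (1 : ℕ) = 0 + 1 from rfl, QSS, QS0, Q0, P]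
      simp
    unfold S
    rw [h1]
    simp [D, F, nu, lc, sum_range_succ]
    ring
  · rw [S_zero hp']
    have h0 : (0 : ℕ).choose p = 0 := Nat.choose_eq_zero_of_lt (by omega)
    have h1 : (2 : ℕ).choose (1 + p) = 0 := Nat.choose_eq_zero_of_lt (by omega)
    simp [D, F, nu, lc, sum_range_succ, h0, h1]

theorem D_eq (hR : StR) (y : ℝ) : ∀ j p : ℕ, D p j (1 - y ^ 2) = S y p j := by
  have key : ∀ j : ℕ, (∀ p, D p j (1 - y ^ 2) = S y p j) ∧
      (∀ p, D p (j + 1) (1 - y ^ 2) = S y p (j + 1)) := by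
    intro j
    induction j with
    | zero => exact ⟨D_zero y, D_one y⟩
    | succ j ih =>
      refine ⟨ih.2, fun p => ?_⟩
      have hj : (j : ℝ) + 2 ≠ 0 := by positivity
      apply mul_left_cancel₀ hj
      cases p with
      | zero =>
        have h1 := D_rec0 hR j (1 - y ^ 2)
        have h2 := S_rec0 y j
        rw [ih.1, ih.2, ih.2] at h1
        show ((j : ℝ) + 2) * D 0 (j + 2) (1 - y ^ 2) = ((j : ℝ) + 2) * S y 0 (j + 2)
        linear_combination h1 - h2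
      | succ p =>
        have h1 := D_recS hR p j (1 - y ^ 2)
        have h2 := S_recS y p j
        rw [ih.1, ih.2, ih.2, ih.2] at h1
        show ((j : ℝ) + 2) * D (p + 1) (j + 2) (1 - y ^ 2) = ((j : ℝ) + 2) * S y (p + 1) (j + 2)
        linear_combination h1 - h2
  exact fun j => (key j).1

end MS

/-- **Module S.** -/
theorem pS (hR : StR) : StS := by
  intro p j t h0 h1
  have hy : (√(1 - t)) ^ 2 = 1 - t := Real.sq_sqrt (by linarith)
  have h2 := MS.D_eq hR (√(1 - t)) j p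
  rw [hy, sub_sub_cancel] at h2
  rw [h2]
  exact MS.S_nonneg (by rw [hy]; linarith) p j

end Pool.Agent.Helper35.QP
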