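import Pool.Agent.Helper35.QP.St

/-! QPOS module X (helper31): the expansion of `p_n(s) L_j(sT)`. -/

namespace Pool.Agent.Helper35.QP

open Finset

/-- coefficient of `s^i` in `pk k` -/
private noncomputable def Xc (k i : ℕ) : ℝ :=
  (-1) ^ i * (k : ℝ) * ((k - 1).choose i : ℝ) * ((k + i).choose i : ℝ)

private theorem Xpk (k N : ℕ) (s : ℝ) (h : k ≤ N) : pk k s = ∑ i ∈ range N, Xc k i * s ^ i := by
  unfold pk
  rw [Finset.mul_sum]
  have h1 : ∑ i ∈ range k, (k : ℝ) * ((-1) ^ i * ((k - 1).choose i : ℝ) * ((k + i).choose i : ℝ) * s ^ i)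
      = ∑ i ∈ range k, Xc k i * s ^ i := by
    refine Finset.sum_congr rfl fun i _ => ?_
    unfold Xc
    ring
  rw [h1]
  refine Finset.sum_subset (Finset.range_mono h) fun i _ hi => ?_
  rw [Finset.mem_range, not_lt] at hi
  unfold Xc
  rcases Nat.eq_zero_or_pos k with h0 | h0
  · subst h0
    simp
  · rw [Nat.choose_eq_zero_of_lt (show k - 1 < i by omega)]
    simp

private theorem XR1 (k i : ℕ) (hk : 1 ≤ k) :
    Xc k (i + 1) * ((i : ℝ) + 1) ^ 2 = -((k : ℝ) + i + 1) * ((k : ℝ) - i - 1) * Xc k i := by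
  have h1 : (((k - 1).choose (i + 1) : ℕ) : ℝ) * ((i : ℝ) + 1) = ((k - 1).choose i : ℝ) * ((k : ℝ) - i - 1) := by
    rcases Nat.lt_or_ge (k - 1) i with h | h
    · rw [Nat.choose_eq_zero_of_lt h, Nat.choose_eq_zero_of_lt (show k - 1 < i + 1 by omega)]
      simp
    · have h2 := Nat.choose_succ_right_eq (k - 1) i
      have h3 : ((((k - 1).choose (i + 1) * (i + 1) : ℕ)) : ℝ) = (((k - 1).choose i * (k - 1 - i) : ℕ) : ℝ) := by
        exact_mod_cast h2
      push_cast [Nat.cast_sub h, Nat.cast_sub hk] at h3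
      rw [h3]
      ring
  have h2 : (((k + (i + 1)).choose (i + 1) : ℕ) : ℝ) * ((i : ℝ) + 1) = ((k : ℝ) + i + 1) * ((k + i).choose i : ℝ) := by
    have h3 := Nat.add_one_mul_choose_eq (k + i) i
    have h4 : (((k + i + 1) * (k + i).choose i : ℕ) : ℝ) = (((k + i + 1).choose (i + 1) * (i + 1) : ℕ) : ℝ) := by
      exact_mod_cast h3
    push_cast at h4
    rw [show k + (i + 1) = k + i + 1 by ring]
    linarith
  unfold Xc
  rw [pow_succ]
  calc _ = -((-1) ^ i * (k : ℝ) * ((((k - 1).choose (i + 1) : ℕ) : ℝ) * ((i : ℝ) + 1)) *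
        ((((k + (i + 1)).choose (i + 1) : ℕ) : ℝ) * ((i : ℝ) + 1))) := by ring
    _ = _ := by rw [h1, h2]; ring

private theorem XR2 (k i : ℕ) :
    Xc (k + 1) i * ((k : ℝ) - i) = ((k : ℝ) + 1 + i) * Xc k i := by
  have h1 : ((k.choose i : ℕ) : ℝ) * ((k : ℝ) - i) = (k : ℝ) * ((k - 1).choose i : ℝ) := by
    rcases Nat.eq_zero_or_pos k with h | h
    · subst h
      rcases Nat.eq_zero_or_pos i with h0 | h0
      · subst h0; simp
      · rw [Nat.choose_eq_zero_of_lt h0]; simp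
    · obtain ⟨k', rfl⟩ : ∃ k', k = k' + 1 := ⟨k - 1, by omega⟩
      rcases Nat.lt_or_ge k' i with h | h
      · rw [show k' + 1 - 1 = k' by omega, Nat.choose_eq_zero_of_lt h]
        rcases Nat.lt_or_ge (k' + 1) i with h' | h'
        · rw [Nat.choose_eq_zero_of_lt h']; simp
        · have : i = k' + 1 := by omega
          subst this
          push_cast
          ring
      · have h3 := Nat.choose_mul_succ_eq k' i
        have h4 : ((k'.choose i * (k' + 1) : ℕ) : ℝ) = (((k' + 1).choose i * (k' + 1 - i) : ℕ) : ℝ) := by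
          exact_mod_cast h3
        push_cast [Nat.cast_sub (show i ≤ k' + 1 by omega)] at h4
        rw [show k' + 1 - 1 = k' by omega]
        push_cast
        linarith
  have h2 : (((k + 1 + i).choose i : ℕ) : ℝ) * ((k : ℝ) + 1) = ((k : ℝ) + 1 + i) * ((k + i).choose i : ℝ) := by
    have h3 := Nat.choose_mul_succ_eq (k + i) i
    have h4 : (((k + i).choose i * (k + i + 1) : ℕ) : ℝ) = (((k + i + 1).choose i * (k + i + 1 - i) : ℕ) : ℝ) := by
      exact_mod_cast h3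
    rw [show k + i + 1 - i = k + 1 by omega] at h4
    push_cast at h4
    rw [show k + 1 + i = k + i + 1 by ring]
    linarith
  unfold Xc
  rw [show k + 1 - 1 = k by omega]
  push_cast
  calc _ = (-1) ^ i * (((k.choose i : ℕ) : ℝ) * ((k : ℝ) - i)) *
        ((((k + 1 + i).choose i : ℕ) : ℝ) * ((k : ℝ) + 1)) := by ring
    _ = _ := by rw [h1, h2]; ring

private theorem Xalg (k i b : ℝ) (d1 : (i + 1) ^ 2 ≠ 0) (d4 : 2 * k + 1 ≠ 0) (d5 : 2 * k - 1 ≠ 0) :
    -(k + i + 1) * (k - i - 1) / (i + 1) ^ 2 * b - 2 * b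
      = k / (2 * k + 1) * (-(k + i + 2) * (k + i + 1) / (i + 1) ^ 2 * b)
        + -(k + i + 1) * (k - i - 1) / (i + 1) ^ 2 * b / ((2 * k + 1) * (2 * k - 1))
        + k / (2 * k - 1) * (-(k - i - 2) * (k - i - 1) / (i + 1) ^ 2 * b) := by
  obtain ⟨w, hw⟩ : ∃ w : ℝ, w = 2 * k - 1 := ⟨_, rfl⟩
  obtain ⟨v, hv⟩ : ∃ v : ℝ, v = 2 * k + 1 := ⟨_, rfl⟩
  obtain ⟨u, hu⟩ : ∃ u : ℝ, u = (i + 1) ^ 2 := ⟨_, rfl⟩
  rw [← hw] at d5
  rw [← hv] at d4
  rw [← hu] at d1
  rw [← hw, ← hv, ← hu]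
  field_simp
  rw [hw, hv, hu]
  ring

private theorem Xid (k i : ℕ) (hi : i < k) :
    Xc k (i + 1) - 2 * Xc k i = (k : ℝ) / (2 * k + 1) * Xc (k + 1) (i + 1)
      + Xc k (i + 1) / (4 * (k : ℝ) ^ 2 - 1) + (k : ℝ) / (2 * k - 1) * Xc (k - 1) (i + 1) := by
  have hk : 1 ≤ k := by omega
  have hkr : (1 : ℝ) ≤ (k : ℝ) := by exact_mod_cast hk
  have hir : (i : ℝ) < (k : ℝ) := by exact_mod_cast hi
  have hi0 : (0 : ℝ) ≤ (i : ℝ) := Nat.cast_nonneg i
  have a1 := XR1 k i hk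
  have a2 := XR1 (k + 1) i (by omega)
  have a3 := XR2 k i
  have a4 := XR2 (k - 1) (i + 1)
  rw [show k - 1 + 1 = k by omega] at a4
  push_cast [Nat.cast_sub hk] at a2 a4
  have d1 : ((i : ℝ) + 1) ^ 2 ≠ 0 := by positivity
  have d2 : (k : ℝ) - i ≠ 0 := by linarith
  have d3 : (k : ℝ) + i + 1 ≠ 0 := by positivity
  have d4 : (2 * (k : ℝ) + 1) ≠ 0 := by positivity
  have d5 : (2 * (k : ℝ) - 1) ≠ 0 := by linarith
  have d6 : (4 * (k : ℝ) ^ 2 - 1) ≠ 0 := by nlinarith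
  have e1 : Xc k (i + 1) = -((k : ℝ) + i + 1) * ((k : ℝ) - i - 1) / ((i : ℝ) + 1) ^ 2 * Xc k i := by
    field_simp
    linarith
  have e2 : Xc (k + 1) i = ((k : ℝ) + 1 + i) / ((k : ℝ) - i) * Xc k i := by
    field_simp
    linarith
  have e3 : Xc (k + 1) (i + 1) = -((k : ℝ) + i + 2) * ((k : ℝ) + i + 1) / ((i : ℝ) + 1) ^ 2 * Xc k i := by
    have : Xc (k + 1) (i + 1) = -((k : ℝ) + 1 + i + 1) * ((k : ℝ) + 1 - i - 1) / ((i : ℝ) + 1) ^ 2 * Xc (k + 1) i := by
      field_simp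
      linarith
    rw [this, e2]
    field_simp
    ring
  have e4 : Xc (k - 1) (i + 1) = -((k : ℝ) - i - 2) * ((k : ℝ) - i - 1) / ((i : ℝ) + 1) ^ 2 * Xc k i := by
    have : Xc (k - 1) (i + 1) = ((k : ℝ) - i - 2) / ((k : ℝ) + i + 1) * Xc k (i + 1) := by
      field_simp
      linarith
    rw [this, e1]
    field_simp
  have d7 : (4 * (k : ℝ) ^ 2 - 1) = (2 * (k : ℝ) + 1) * (2 * (k : ℝ) - 1) := by ring
  rw [e1, e3, e4, d7]
  exact Xalg (k : ℝ) (i : ℝ) (Xc k i) d1 d4 d5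

private theorem Xrec (k : ℕ) (s : ℝ) (hk : 1 ≤ k) :
    (1 - 2 * s) * pk k s = (k : ℝ) / (2 * k + 1) * pk (k + 1) s + pk k s / (4 * (k : ℝ) ^ 2 - 1)
      + (k : ℝ) / (2 * k - 1) * pk (k - 1) s := by
  have hkr : (1 : ℝ) ≤ (k : ℝ) := by exact_mod_cast hk
  have d4 : (2 * (k : ℝ) + 1) ≠ 0 := by positivity
  have d5 : (2 * (k : ℝ) - 1) ≠ 0 := by linarith
  have d6 : (4 * (k : ℝ) ^ 2 - 1) ≠ 0 := by nlinarith
  have hA : pk k s = ∑ i ∈ range k, Xc k (i + 1) * s ^ (i + 1) + Xc k 0 := by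
    rw [Xpk k (k + 1) s (by omega), Finset.sum_range_succ']
    simp
  have hB : pk (k + 1) s = ∑ i ∈ range k, Xc (k + 1) (i + 1) * s ^ (i + 1) + Xc (k + 1) 0 := by
    rw [Xpk (k + 1) (k + 1) s le_rfl, Finset.sum_range_succ']
    simp
  have hC : pk (k - 1) s = ∑ i ∈ range k, Xc (k - 1) (i + 1) * s ^ (i + 1) + Xc (k - 1) 0 := by
    rw [Xpk (k - 1) (k + 1) s (by omega), Finset.sum_range_succ']
    simp
  have hD : 2 * s * pk k s = ∑ i ∈ range k, 2 * Xc k i * s ^ (i + 1) := by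
    rw [Xpk k k s le_rfl, Finset.mul_sum]
    refine Finset.sum_congr rfl fun i _ => ?_
    ring
  have h0 : Xc k 0 = (k : ℝ) / (2 * k + 1) * Xc (k + 1) 0 + Xc k 0 / (4 * (k : ℝ) ^ 2 - 1)
      + (k : ℝ) / (2 * k - 1) * Xc (k - 1) 0 := by
    unfold Xc
    have d7 : (4 * (k : ℝ) ^ 2 - 1) = (2 * (k : ℝ) + 1) * (2 * (k : ℝ) - 1) := by ring
    rw [d7]
    push_cast [Nat.cast_sub hk]
    simp only [pow_zero, Nat.choose_zero_right, Nat.cast_one, one_mul, mul_one]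
    obtain ⟨w, hw⟩ : ∃ w : ℝ, w = 2 * (k : ℝ) - 1 := ⟨_, rfl⟩
    obtain ⟨v, hv⟩ : ∃ v : ℝ, v = 2 * (k : ℝ) + 1 := ⟨_, rfl⟩
    rw [← hw] at d5
    rw [← hv] at d4
    rw [← hw, ← hv]
    field_simp
    rw [hw, hv]
    ring
  have hS : ∑ i ∈ range k, (Xc k (i + 1) - 2 * Xc k i) * s ^ (i + 1)
      = (k : ℝ) / (2 * k + 1) * ∑ i ∈ range k, Xc (k + 1) (i + 1) * s ^ (i + 1)
        + (∑ i ∈ range k, Xc k (i + 1) * s ^ (i + 1)) / (4 * (k : ℝ) ^ 2 - 1)
        + (k : ℝ) / (2 * k - 1) * ∑ i ∈ range k, Xc (k - 1) (i + 1) * s ^ (i + 1) := by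
    rw [Finset.mul_sum, Finset.mul_sum, Finset.sum_div, ← Finset.sum_add_distrib, ← Finset.sum_add_distrib]
    refine Finset.sum_congr rfl fun i hi => ?_
    rw [Finset.mem_range] at hi
    rw [Xid k i hi]
    ring
  have hL : (1 - 2 * s) * pk k s = ∑ i ∈ range k, (Xc k (i + 1) - 2 * Xc k i) * s ^ (i + 1) + Xc k 0 := by
    have : (1 - 2 * s) * pk k s = pk k s - 2 * s * pk k s := by ring
    rw [this, hD, hA]
    have h2 : ∑ i ∈ range k, (Xc k (i + 1) - 2 * Xc k i) * s ^ (i + 1)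
        = ∑ i ∈ range k, Xc k (i + 1) * s ^ (i + 1) - ∑ i ∈ range k, 2 * Xc k i * s ^ (i + 1) := by
      rw [← Finset.sum_sub_distrib]
      refine Finset.sum_congr rfl fun i _ => ?_
      ring
    rw [h2]
    ring
  rw [hL, hS, hB, hC, hA]
  have h0' := h0
  linear_combination h0'

private theorem Xtr (f : ℕ → ℝ) (s : ℝ) (N : ℕ) :
    ∑ k ∈ range (N + 1), X f k * pk k s = ∑ k ∈ range (N + 1), f k * ((1 - 2 * s) * pk k s)
      - (N : ℝ) / (2 * N + 1) * f N * pk (N + 1) s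
      + ((N : ℝ) + 1) / (2 * N + 1) * f (N + 1) * pk N s := by
  induction N with
  | zero =>
    have : pk 0 s = 0 := by unfold pk; simp
    simp [this]
  | succ N ih =>
    rw [Finset.sum_range_succ, ih, Finset.sum_range_succ (fun k => f k * ((1 - 2 * s) * pk k s)) (N + 1)]
    have hr := Xrec (N + 1) s (by omega)
    rw [show N + 1 - 1 = N by omega] at hr
    have hX : X f (N + 1) = (N : ℝ) / (2 * N + 1) * f N + f (N + 1) / (4 * ((N : ℝ) + 1) ^ 2 - 1)
        + ((N : ℝ) + 2) / (2 * N + 3) * f (N + 2) := by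
      unfold X
      rw [if_neg (by omega)]
      rw [show N + 1 - 1 = N by omega, show N + 1 + 1 = N + 2 by ring]
      push_cast
      have e1 : ((N : ℝ) + 1 - 1) / (2 * ((N : ℝ) + 1) - 1) = (N : ℝ) / (2 * N + 1) := by
        congr 1 <;> ring
      have e2 : ((N : ℝ) + 1 + 1) / (2 * ((N : ℝ) + 1) + 1) = ((N : ℝ) + 2) / (2 * N + 3) := by
        congr 1 <;> ring
      rw [e1, e2]
    rw [hX]
    push_cast at hr ⊢
    rw [hr]
    have e3 : 2 * ((N : ℝ) + 1) + 1 = 2 * N + 3 := by ring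
    have e4 : 2 * ((N : ℝ) + 1) - 1 = 2 * N + 1 := by ring
    have e5 : (N : ℝ) + 1 + 1 = N + 2 := by ring
    rw [e3, e4, e5]
    rw [show N + 1 + 1 = N + 2 by ring]
    ring

private theorem Xmu0 (n : ℕ) (m : ℕ) : ∀ k, n + m < k → mu n m k = 0 := by
  induction m with
  | zero =>
    intro k hk
    simp only [mu]
    rw [if_neg (by omega)]
  | succ m ih =>
    intro k hk
    have h1 := ih k (by omega)
    have h2 := ih (k - 1) (by omega)
    have h3 := ih (k + 1) (by omega)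
    simp only [mu]
    unfold X
    rw [if_neg (by omega), h1, h2, h3]
    simp

private theorem Xmain (n m : ℕ) (s : ℝ) : ∀ N, n + m < N →
    ∑ k ∈ range N, mu n m k * pk k s = s ^ m * pk n s := by
  induction m with
  | zero =>
    intro N hN
    simp only [mu]
    rw [Finset.sum_eq_single n]
    · simp
    · intro b _ hb
      rw [if_neg hb]
      simp
    · intro h
      exact absurd (Finset.mem_range.2 (by omega)) h
  | succ m ih =>
    intro N hN
    obtain ⟨N', rfl⟩ : ∃ N', N = N' + 1 := ⟨N - 1, by omega⟩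
    have h1 := ih (N' + 1) (by omega)
    have h2 := Xtr (mu n m) s N'
    rw [Xmu0 n m N' (by omega), Xmu0 n m (N' + 1) (by omega)] at h2
    have h3 : ∑ k ∈ range (N' + 1), mu n m k * ((1 - 2 * s) * pk k s)
        = (1 - 2 * s) * ∑ k ∈ range (N' + 1), mu n m k * pk k s := by
      rw [Finset.mul_sum]
      refine Finset.sum_congr rfl fun i _ => ?_
      ring
    have h4 : ∑ k ∈ range (N' + 1), mu n (m + 1) k * pk k s
        = (∑ k ∈ range (N' + 1), mu n m k * pk k s - ∑ k ∈ range (N' + 1), X (mu n m) k * pk k s) / 2 := by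
      rw [← Finset.sum_sub_distrib, Finset.sum_div]
      refine Finset.sum_congr rfl fun i _ => ?_
      simp only [mu]
      ring
    rw [h4, h2, h3, h1]
    ring

theorem pX : StX := by
  intro n j s T _
  unfold Lg
  rw [Finset.mul_sum]
  have h1 : ∀ m ∈ range (j + 1), pk n s * (lc j m * (s * T) ^ m)
      = ∑ k ∈ range (n + j + 1), lc j m * T ^ m * mu n m k * pk k s := by
    intro m hm
    rw [Finset.mem_range] at hm
    have h2 := Xmain n m s (n + j + 1) (by omega)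
    calc pk n s * (lc j m * (s * T) ^ m) = lc j m * T ^ m * (s ^ m * pk n s) := by
          rw [mul_pow]; ring
      _ = _ := by
          rw [← h2, Finset.mul_sum]
          refine Finset.sum_congr rfl fun k _ => ?_
          ring
  rw [Finset.sum_congr rfl h1, Finset.sum_comm]
  refine Finset.sum_congr rfl fun k _ => ?_
  unfold q F
  rw [Finset.sum_mul]

end Pool.Agent.Helper35.QP
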