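import Mathlib

/-!
# (QPOS) for MP_3dd6d4 (group H)

Definitions and module statements for the positivity
`p_n(s) L_j(sT) = ∑_k q^{(j)}_k(T) p_k(s)`, `q^{(j)}_k(T) ≥ 0` for `j < n`, `0 ≤ T ≤ 1`
(paper proof: `/team-store/MP_3dd6d4-helper35-LIN.md`).
-/

namespace Pool.Agent.Helper35.QP

open Finset

/-- `g i = C(2i,i)/4^i`. -/
noncomputable def g (i : ℕ) : ℝ := (Nat.centralBinom i : ℝ) / 4 ^ i

/-- Coefficients of `L_j(s) = P_j(1-2s)`. -/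
noncomputable def lc (j m : ℕ) : ℝ :=
  (-1) ^ m * (j.choose m : ℝ) * ((j + m).choose m : ℝ)

/-- `(1/π)∫_0^π ((1-cos θ)/2)^m cos(pθ) dθ`. -/
noncomputable def nu (p m : ℕ) : ℝ := (-1) ^ p * ((2 * m).choose (m + p) : ℝ) / 4 ^ m

/-- The generic transform of a moment sequence. -/
noncomputable def F (M : ℕ → ℝ) (j : ℕ) (T : ℝ) : ℝ :=
  ∑ m ∈ range (j + 1), lc j m * T ^ m * M m

/-- `D p j t = d^j_{p0}(φ)^2`, `t = sin² φ`. -/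
noncomputable def D (p j : ℕ) (t : ℝ) : ℝ := F (nu p) j t

/-- Multiplication by `1-2s` on the coefficient sequences with respect to `p_k`, `k ≥ 1`. -/
noncomputable def X (f : ℕ → ℝ) (k : ℕ) : ℝ :=
  if k = 0 then 0 else
    ((k : ℝ) - 1) / (2 * k - 1) * f (k - 1) + f k / (4 * (k : ℝ) ^ 2 - 1)
      + ((k : ℝ) + 1) / (2 * k + 1) * f (k + 1)

/-- `mu n m k` = coefficient of `p_k` in `s^m p_n`. -/
noncomputable def mu (n : ℕ) : ℕ → ℕ → ℝ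
  | 0 => fun k => if k = n then 1 else 0
  | m + 1 => fun k => (mu n m k - X (mu n m) k) / 2

/-- `q n j T k` = coefficient of `p_k(s)` in `p_n(s) L_j(sT)`. -/
noncomputable def q (n j : ℕ) (T : ℝ) (k : ℕ) : ℝ := F (fun m => mu n m k) j T

/-- `p_k(s) = k 2F1(1-k,k+1;1;s)`. -/
noncomputable def pk (k : ℕ) (s : ℝ) : ℝ :=
  k * ∑ i ∈ range k, (-1) ^ i * ((k - 1).choose i : ℝ) * ((k + i).choose i : ℝ) * s ^ i

/-- `L_j(s) = P_j(1-2s)`. -/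
noncomputable def Lg (j : ℕ) (s : ℝ) : ℝ := ∑ m ∈ range (j + 1), lc j m * s ^ m

/-! ### the cone functional -/

noncomputable def h (κ l : ℕ) : ℝ :=
  ((2 * l + 1) * (l + κ + 2)) / ((l + 1) * (2 * l + 2 * κ + 3))

/-- `cf i κ G` = coefficient of `γ^{κ+2i}` in `G·γ^κ` (`G l` = value at `L = κ+2l`). -/
noncomputable def cf : ℕ → ℕ → (ℕ → ℝ) → ℝ
  | 0, _, G => G 0
  | i + 1, κ, G => cf i (κ + 2) (fun l => (G (l + 1) - G 0) * h κ l)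

/-! ### the closed forms at `T = 1` -/

/-- `A_{κ+2l}`, `a = b + κ`. -/
noncomputable def Ae (a b l : ℕ) : ℝ := ((b : ℝ) - l) * g (b - l) / g (a + l)

/-- `A_{κ+1+2l}`, `a = b + κ`. -/
noncomputable def Ao (a b l : ℕ) : ℝ := ((a : ℝ) + 1 + l) * g (a + 1 + l) / g (b - 1 - l)

/-- odd part as a multiple of `γ^{κ+1}`, `κ = a - b`. -/
noncomputable def Go (a b l : ℕ) : ℝ :=
  ((2 * l + 1) * (2 * l + 2 * ((a : ℝ) - b) + 2)) / (4 * Ao a b l)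

noncomputable def Phi (κ p : ℕ) (y : ℝ) : ℝ :=
  ∑ i ∈ range (p + 1), (-1) ^ i * y ^ i *
    (∏ r ∈ range i, ((p : ℝ) ^ 2 - ((κ : ℝ) + 1 + r) ^ 2)) / ((i.factorial : ℝ) * ((i + 1).factorial : ℝ))

/-! ### module statements -/

/-- Module R: recurrence of the transform. -/
def StR : Prop := ∀ (M : ℕ → ℝ) (j : ℕ) (T : ℝ),
  ((j : ℝ) + 2) * F M (j + 2) T + ((j : ℝ) + 1) * F M j T
    = (2 * (j : ℝ) + 3) * (F M (j + 1) T - 2 * T * F (fun m => M (m + 1)) (j + 1) T)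

/-- Module C: the cone functional. -/
def StC1 : Prop := ∀ (i κ : ℕ) (G H : ℕ → ℝ) (x y : ℝ),
  cf i κ (fun l => x * G l + y * H l) = x * cf i κ G + y * cf i κ H

def StC2 : Prop := ∀ (l κ : ℕ) (G : ℕ → ℝ),
  G l * (g (κ + l) * g l) = ∑ i ∈ range (l + 1), cf i κ G * (g (κ + i + l) * g (l - i))

def StC3 : Prop := ∀ (i κ : ℕ) (G : ℕ → ℝ), (∀ l, l < i → G l ≤ G (l + 1)) →
  (0 < i ∨ 0 ≤ G 0) → 0 ≤ cf i κ G

def StC4 : Prop := ∀ (i κ : ℕ) (x : ℝ), cf (i + 1) κ (fun _ => x) = 0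

def StC5 : Prop := ∀ (i κ : ℕ),
  cf (i + 1) κ (fun l => (2 * (l : ℝ)) * (2 * l + 2 * κ + 1)) = 2 * ((κ : ℝ) + 2 * (i + 1))

/-- Module S: addition theorem, `D` is nonnegative. -/
def StS : Prop := ∀ (p j : ℕ) (t : ℝ), 0 ≤ t → t ≤ 1 → 0 ≤ D p j t

/-- Module G: `D` at `t = 1`. -/
def StG1 : Prop := ∀ (p i : ℕ), D p (p + 2 * i) 1 = g (p + i) * g i

def StG2 : Prop := ∀ (p i : ℕ), D p (p + 2 * i + 1) 1 = 0

/-- Module K: linearisation at `T = 1`.  `a = max n k`, `b = min n k`. -/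
def StK0 : Prop := ∀ (n k L : ℕ), 1 ≤ n → 1 ≤ k → L < max n k - min n k → q n L 1 k = 0

def StK1 : Prop := ∀ (n k l : ℕ), 1 ≤ n → 1 ≤ k → l ≤ min n k →
  (k : ℝ) * q n (max n k - min n k + 2 * l) 1 k
    = Ae (max n k) (min n k) l * (g (max n k - min n k + l) * g l)

def StK2 : Prop := ∀ (n k l : ℕ), 1 ≤ n → 1 ≤ k → l + 1 ≤ min n k →
  (k : ℝ) * q n (max n k - min n k + 1 + 2 * l) 1 k
    = Go (max n k) (min n k) l * (g (max n k - min n k + 1 + l) * g l)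

/-- Module E: expansion of the dilated functional. -/
def StE : Prop := ∀ (κ m : ℕ) (y : ℝ),
  (1 - y) ^ m * nu κ m = (1 - y) ^ κ * (nu κ m + ∑ p ∈ Ioc κ m,
    (-1) ^ (p - κ - 1) * (2 * (p : ℝ)) * y * Phi κ p y * nu p m)

/-- Module P: bounds for `Phi`. -/
def StP : Prop := ∀ (κ p : ℕ) (y : ℝ), κ < p → 0 ≤ y →
  ((p : ℝ) ^ 2 - ((κ : ℝ) + 1) ^ 2) * y ≤ 1 →
  1 - ((p : ℝ) ^ 2 - ((κ : ℝ) + 1) ^ 2) * y / 2 ≤ Phi κ p y ∧ Phi κ p y ≤ 1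

/-- Module B: positivity of the remaining coefficients; `a = b + κ`, `y = 1/((2a+1)(2b-1))`. -/
def StB1 : Prop := ∀ (κ b i : ℕ), 1 ≤ b → κ + 2 * (i + 1) + 1 ≤ b + κ →
  0 ≤ cf (i + 1) κ (Ae (b + κ) b)
    + Ae (b + κ) b 0 * (2 * ((κ : ℝ) + 2 * (i + 1))) * (1 / ((2 * ((b : ℝ) + κ) + 1) * (2 * b - 1)))
      * Phi κ (κ + 2 * (i + 1)) (1 / ((2 * ((b : ℝ) + κ) + 1) * (2 * b - 1)))

def StB2 : Prop := ∀ (κ b i : ℕ), 1 ≤ b → κ + 1 + 2 * i + 1 ≤ b + κ →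
  0 ≤ cf i (κ + 1) (Go (b + κ) b)
    - Ae (b + κ) b 0 * (2 * ((κ : ℝ) + 1 + 2 * i)) * (1 / ((2 * ((b : ℝ) + κ) + 1) * (2 * b - 1)))
      * Phi κ (κ + 1 + 2 * i) (1 / ((2 * ((b : ℝ) + κ) + 1) * (2 * b - 1)))

/-- Module X: the expansion really is the product. -/
def StX : Prop := ∀ (n j : ℕ) (s T : ℝ), 1 ≤ n →
  pk n s * Lg j (s * T) = ∑ k ∈ range (n + j + 1), q n j T k * pk k s

/-- The goal. -/
def StQPOS : Prop := ∀ (n k j : ℕ) (T : ℝ), 1 ≤ n → 1 ≤ k → j < n → 0 ≤ T → T ≤ 1 →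
  0 ≤ q n j T k

end Pool.Agent.Helper35.QP
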