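import Pool.Agent.Helper35.QP.Asm
import Pool.Agent.Helper35.QP.M_B
import Pool.Agent.Helper35.QP.M_C
import Pool.Agent.Helper35.QP.M_E
import Pool.Agent.Helper35.QP.M_G
import Pool.Agent.Helper35.QP.M_K
import Pool.Agent.Helper35.QP.M_S
import Pool.Agent.Helper35.QP.M_X
import Pool.Agent.Helper69.CR.St

namespace Pool.Agent.Helper35.QP

open Finset

/-- (QPOS). -/
theorem qpos : StQPOS :=
  qpos_of pC2 (pS pR) (pG1 pR) (pG2 pR) (pK0 pR) (pK1 pR) (pK2 pR) pE
    (pB1 pC1 pC3 pC4 pC5 pP) (pB2 pC1 pC3 pC4 pC5 pP)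

theorem pp_eq (k : ℕ) (s : ℝ) : Helper69.CR.pp k s = pk k s := by
  unfold Helper69.CR.pp pk
  rw [Finset.mul_sum]
  refine Finset.sum_congr rfl (fun i hi => ?_)
  have hi' := Finset.mem_range.1 hi
  unfold Helper69.CR.pc
  rw [Nat.cast_choose ℝ (show i ≤ k - 1 by omega), Nat.cast_choose ℝ (show i ≤ k + i by omega)]
  rw [show k + i - i = k by omega]
  obtain ⟨k, rfl⟩ : ∃ k', k = k' + 1 := ⟨k - 1, by omega⟩
  rw [show k + 1 - 1 = k by omega]
  have h1 : (((k + 1).factorial : ℕ) : ℝ) = ((k : ℝ) + 1) * (k.factorial : ℝ) := by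
    rw [Nat.factorial_succ]; push_cast; ring
  have h2 : (k.factorial : ℝ) ≠ 0 := by exact_mod_cast k.factorial_ne_zero
  have h3 : (i.factorial : ℝ) ≠ 0 := by exact_mod_cast i.factorial_ne_zero
  have h4 : ((k - i).factorial : ℝ) ≠ 0 := by exact_mod_cast (k - i).factorial_ne_zero
  have h5 : ((k : ℝ) + 1) ≠ 0 := by positivity
  rw [h1]
  push_cast
  field_simp

theorem lc_eq (j i : ℕ) (h : i ≤ j) : Helper69.CR.lc j i = lc j i := by
  unfold Helper69.CR.lc lc
  rw [Nat.cast_choose ℝ h, Nat.cast_choose ℝ (show i ≤ j + i by omega)]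
  rw [show j + i - i = j by omega]
  have h2 : (j.factorial : ℝ) ≠ 0 := by exact_mod_cast j.factorial_ne_zero
  have h3 : (i.factorial : ℝ) ≠ 0 := by exact_mod_cast i.factorial_ne_zero
  have h4 : ((j - i).factorial : ℝ) ≠ 0 := by exact_mod_cast (j - i).factorial_ne_zero
  field_simp

theorem LL_eq (j : ℕ) (s : ℝ) : Helper69.CR.LL j s = Lg j s := by
  unfold Helper69.CR.LL Lg
  refine Finset.sum_congr rfl (fun i hi => ?_)
  rw [lc_eq j i (by have := Finset.mem_range.1 hi; omega)]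

/-- The interface used by project CR. -/
theorem hQ : Helper69.CR.StQ := by
  intro n hn j hj T hT0 hT1
  refine ⟨fun k => if 1 ≤ k ∧ k < n + j + 1 then q n j T k else 0, fun k => ?_, fun s => ?_⟩
  · dsimp only
    split_ifs with h
    · exact qpos n k j T hn h.1 hj hT0 hT1
    · exact le_rfl
  · rw [pp_eq, LL_eq, pX n j s T hn]
    rw [← Finset.sum_subset (Finset.range_mono (show n + j + 1 ≤ 2 * n by omega))]
    · refine Finset.sum_congr rfl (fun k hk => ?_)
      have hk' := Finset.mem_range.1 hk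
      rw [pp_eq]
      rcases Nat.eq_zero_or_pos k with rfl | hk0
      · simp [pk]
      · dsimp only
        rw [if_pos ⟨hk0, hk'⟩]
    · intro k _ hk
      have : ¬ k < n + j + 1 := by simpa using hk
      dsimp only
      rw [if_neg (by omega), zero_mul]

end Pool.Agent.Helper35.QP

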